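import Mathlib

/-!
# Coprime pairs with odd second coordinate
-/

set_option autoImplicit false

namespace Pool.Agent.Q185.HT

open Finset

/-- the coprime pairs in the square -/
def Sq (n : ℕ) : Finset (ℕ × ℕ) := ((Icc 1 n) ×ˢ (Icc 1 n)).filter fun p => Nat.Coprime p.1 p.2

/-- the coprime pairs `a ≤ b` -/
def Tr (n : ℕ) : Finset (ℕ × ℕ) := (Sq n).filter fun p => p.1 ≤ p.2

/-- the coprime pairs `a ≤ b`, `b` odd -/
def Od (n : ℕ) : Finset (ℕ × ℕ) := (Tr n).filter fun p => Odd p.2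

/-- the coprime pairs `a ≤ b`, `b` even -/
def Ev (n : ℕ) : Finset (ℕ × ℕ) := (Tr n).filter fun p => ¬ Odd p.2

/-- fractions `r / c` in `[0,1)` with odd denominator at most `n` -/
def Fr (n : ℕ) : Finset (ℕ × ℕ) :=
  ((Icc 1 n) ×ˢ (range n)).filter fun p => Odd p.1 ∧ p.2 < p.1 ∧ Nat.Coprime p.2 p.1

theorem sum_inv (n : ℕ) : ∑ k ∈ Icc 2 n, ((n / k : ℕ) : ℝ) ^ 2 ≤ 3 / 4 * (n : ℝ) ^ 2 := by
  have h1 : ∀ k ∈ Icc 2 n, ((n / k : ℕ) : ℝ) ^ 2 ≤ (n : ℝ) ^ 2 * (1 / (k : ℝ) ^ 2) := by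
    intro k hk
    rw [mem_Icc] at hk
    have hk0 : (0 : ℝ) < k := by exact_mod_cast (by omega : 0 < k)
    have h2 : ((n / k : ℕ) : ℝ) ≤ n / k := Nat.cast_div_le
    calc ((n / k : ℕ) : ℝ) ^ 2 ≤ ((n : ℝ) / k) ^ 2 := pow_le_pow_left₀ (Nat.cast_nonneg _) h2 2
      _ = _ := by rw [div_pow]; ring
  have h2 : ∀ m : ℕ, 2 ≤ m → ∑ k ∈ Icc 2 m, (1 / (k : ℝ) ^ 2) ≤ (3 : ℝ) / 4 - 1 / (m : ℝ) := by
    intro m hm
    induction m, hm using Nat.le_induction with
    | base => norm_num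
    | succ m hm ih =>
      rw [Finset.sum_Icc_succ_top (by omega)]
      have hm0 : (0 : ℝ) < m := by exact_mod_cast (by omega : 0 < m)
      have h3 : 1 / ((m + 1 : ℕ) : ℝ) ^ 2 ≤ 1 / m - 1 / ((m + 1 : ℕ) : ℝ) := by
        push_cast
        rw [div_sub_div _ _ hm0.ne' (by positivity), div_le_div_iff₀ (by positivity) (by positivity)]
        nlinarith
      linarith
  refine (sum_le_sum h1).trans ?_
  rw [← mul_sum, mul_comm (3 / 4 : ℝ)]
  refine mul_le_mul_of_nonneg_left ?_ (by positivity)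
  rcases le_or_gt 2 n with h | h
  · refine (h2 n h).trans ?_
    have : (0 : ℝ) ≤ 1 / n := by positivity
    linarith
  · rw [Icc_eq_empty (by omega), sum_empty]
    norm_num

theorem card_Sq (n : ℕ) : (n : ℝ) ^ 2 / 4 ≤ ((Sq n).card : ℝ) := by
  classical
  have h1 : (Icc 1 n) ×ˢ (Icc 1 n) ⊆ Sq n ∪ (Icc 2 n).biUnion fun k =>
      ((Icc 1 (n / k)) ×ˢ (Icc 1 (n / k))).image fun p : ℕ × ℕ => (k * p.1, k * p.2) := by
    rintro ⟨a, b⟩ hab
    rw [mem_product, mem_Icc, mem_Icc] at hab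
    obtain ⟨⟨ha1, ha2⟩, hb1, hb2⟩ := hab
    simp only at ha1 ha2 hb1 hb2
    rw [mem_union]
    by_cases hc : Nat.Coprime a b
    · left
      unfold Sq
      rw [mem_filter, mem_product, mem_Icc, mem_Icc]
      exact ⟨⟨⟨ha1, ha2⟩, hb1, hb2⟩, hc⟩
    · right
      have hg1 : Nat.gcd a b ≠ 1 := hc
      have hg0 : 0 < Nat.gcd a b := Nat.gcd_pos_of_pos_left _ (by omega)
      have hga := Nat.gcd_dvd_left a b
      have hgb := Nat.gcd_dvd_right a b
      rw [mem_biUnion]
      refine ⟨Nat.gcd a b, mem_Icc.2 ⟨by omega, (Nat.le_of_dvd (by omega) hga).trans ha2⟩, ?_⟩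
      rw [mem_image]
      refine ⟨(a / Nat.gcd a b, b / Nat.gcd a b), ?_, ?_⟩
      · rw [mem_product, mem_Icc, mem_Icc]
        refine ⟨⟨Nat.div_pos (Nat.le_of_dvd (by omega) hga) hg0, Nat.div_le_div_right ha2⟩,
          Nat.div_pos (Nat.le_of_dvd (by omega) hgb) hg0, Nat.div_le_div_right hb2⟩
      · simp only [Prod.mk.injEq]
        exact ⟨Nat.mul_div_cancel' hga, Nat.mul_div_cancel' hgb⟩
  have h2 := (card_le_card h1).trans (card_union_le _ _)
  rw [card_product, Nat.card_Icc, Nat.add_sub_cancel] at h2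
  have h3 : ((Icc 2 n).biUnion fun k =>
      ((Icc 1 (n / k)) ×ˢ (Icc 1 (n / k))).image fun p : ℕ × ℕ => (k * p.1, k * p.2)).card ≤
      ∑ k ∈ Icc 2 n, (n / k) ^ 2 := by
    refine card_biUnion_le.trans (sum_le_sum fun k _ => card_image_le.trans (le_of_eq ?_))
    rw [card_product, Nat.card_Icc, Nat.add_sub_cancel]
    ring
  have h4 : ((n * n : ℕ) : ℝ) ≤ ((Sq n).card : ℝ) + ((∑ k ∈ Icc 2 n, (n / k) ^ 2 : ℕ) : ℝ) := by
    exact_mod_cast h2.trans (Nat.add_le_add_left h3 _)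
  have h5 := sum_inv n
  push_cast at h4
  have e : ((n : ℝ)) * n = (n : ℝ) ^ 2 := by ring
  rw [e] at h4
  linarith

theorem card_Tr (n : ℕ) : (n : ℝ) ^ 2 / 8 ≤ ((Tr n).card : ℝ) := by
  classical
  have h1 : Sq n ⊆ Tr n ∪ (Tr n).image Prod.swap := by
    rintro ⟨a, b⟩ h
    rw [mem_union]
    unfold Sq at h
    rw [mem_filter, mem_product] at h
    obtain ⟨⟨ha, hb⟩, hc⟩ := h
    simp only at ha hb hc
    rcases le_total a b with hab | hab
    · left
      unfold Tr Sq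
      rw [mem_filter, mem_filter, mem_product]
      exact ⟨⟨⟨ha, hb⟩, hc⟩, hab⟩
    · right
      rw [mem_image]
      refine ⟨(b, a), ?_, rfl⟩
      unfold Tr Sq
      rw [mem_filter, mem_filter, mem_product]
      exact ⟨⟨⟨hb, ha⟩, hc.symm⟩, hab⟩
  have h2 := (card_le_card h1).trans ((card_union_le _ _).trans (Nat.add_le_add_left card_image_le _))
  have h3 := card_Sq n
  have h4 : ((Sq n).card : ℝ) ≤ (Tr n).card + (Tr n).card := by exact_mod_cast h2
  linarith

theorem card_Od (n : ℕ) : (n : ℝ) ^ 2 / 24 ≤ ((Od n).card : ℝ) := by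
  classical
  have h1 : (Ev n).card ≤ 2 * (Od n).card := by
    refine card_le_mul_card_image_of_maps_to (f := fun p : ℕ × ℕ => (min p.1 (p.2 - p.1), max p.1 (p.2 - p.1))) ?_ 2 ?_
    · rintro ⟨a, b⟩ h
      unfold Ev Tr Sq at h
      rw [mem_filter, mem_filter, mem_filter, mem_product, mem_Icc, mem_Icc] at h
      obtain ⟨⟨⟨⟨⟨ha1, ha2⟩, hb1, hb2⟩, hc⟩, hab⟩, hev⟩ := h
      simp only at ha1 ha2 hb1 hb2 hc hab hev
      rw [Nat.not_odd_iff_even] at hev
      have haodd : Odd a := by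
        rw [← Nat.not_even_iff_odd]
        intro hae
        have h2 : 2 ∣ Nat.gcd a b := Nat.dvd_gcd hae.two_dvd hev.two_dvd
        rw [hc] at h2
        omega
      have hlt : a < b := by
        rcases hab.lt_or_eq with h | h
        · exact h
        · exfalso
          rw [h] at haodd
          exact (Nat.not_even_iff_odd.2 haodd) hev
      have hodd2 : Odd (b - a) := Nat.Even.sub_odd hab hev haodd
      have hcop : Nat.Coprime a (b - a) := (Nat.coprime_sub_self_right hab).2 hc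
      show (min a (b - a), max a (b - a)) ∈ Od n
      unfold Od Tr Sq
      rw [mem_filter, mem_filter, mem_filter, mem_product, mem_Icc, mem_Icc]
      rcases le_total a (b - a) with h | h
      · rw [min_eq_left h, max_eq_right h]
        exact ⟨⟨⟨⟨⟨ha1, by omega⟩, by omega, by omega⟩, hcop⟩, h⟩, hodd2⟩
      · rw [min_eq_right h, max_eq_left h]
        exact ⟨⟨⟨⟨⟨by omega, by omega⟩, by omega, by omega⟩, hcop.symm⟩, h⟩, haodd⟩
    · rintro ⟨x, y⟩ _
      have h2 : ((Ev n).filter fun p : ℕ × ℕ => (min p.1 (p.2 - p.1), max p.1 (p.2 - p.1)) = (x, y)) ⊆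
          {(x, x + y), (y, x + y)} := by
        rintro ⟨a, b⟩ h
        rw [mem_filter] at h
        obtain ⟨h, h3⟩ := h
        unfold Ev Tr Sq at h
        rw [mem_filter, mem_filter, mem_filter, mem_product, mem_Icc, mem_Icc] at h
        obtain ⟨⟨⟨⟨⟨ha1, ha2⟩, hb1, hb2⟩, hc⟩, hab⟩, hev⟩ := h
        simp only at ha1 ha2 hb1 hb2 hc hab hev h3
        rw [Prod.mk.injEq] at h3
        rw [mem_insert, mem_singleton, Prod.mk.injEq, Prod.mk.injEq]
        obtain ⟨h4, h5⟩ := h3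
        rcases le_total a (b - a) with h | h
        · rw [min_eq_left h] at h4
          rw [max_eq_right h] at h5
          left
          exact ⟨h4, by omega⟩
        · rw [min_eq_right h] at h4
          rw [max_eq_left h] at h5
          right
          exact ⟨h5, by omega⟩
      exact (card_le_card h2).trans card_le_two
  have h2 : (Tr n).card = (Od n).card + (Ev n).card := (card_filter_add_card_filter_not _).symm
  have h3 := card_Tr n
  have h4 : ((Tr n).card : ℝ) ≤ 3 * (Od n).card := by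
    have : (Tr n).card ≤ 3 * (Od n).card := by omega
    exact_mod_cast this
  linarith

theorem card_Fr (n : ℕ) : (n : ℝ) ^ 2 / 24 ≤ ((Fr n).card : ℝ) := by
  classical
  refine (card_Od n).trans ?_
  have h : (Od n).card ≤ (Fr n).card := by
    refine card_le_card_of_injOn (fun p => (p.2, p.1 % p.2)) ?_ ?_
    · rintro ⟨a, b⟩ h
      rw [mem_coe] at h
      unfold Od Tr Sq at h
      rw [mem_filter, mem_filter, mem_filter, mem_product, mem_Icc, mem_Icc] at h
      obtain ⟨⟨⟨⟨⟨ha1, ha2⟩, hb1, hb2⟩, hc⟩, hab⟩, hodd⟩ := h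
      simp only at ha1 ha2 hb1 hb2 hc hab hodd
      rw [mem_coe]
      unfold Fr
      rw [mem_filter, mem_product, mem_Icc, mem_range]
      have h3 : a % b < b := Nat.mod_lt _ (by omega)
      refine ⟨⟨⟨hb1, hb2⟩, by simp only; omega⟩, hodd, h3, ?_⟩
      show Nat.gcd (a % b) b = 1
      rw [← Nat.gcd_rec, Nat.gcd_comm]
      exact hc
    · rintro ⟨a, b⟩ h ⟨a', b'⟩ h' hh
      rw [mem_coe] at h h'
      unfold Od Tr Sq at h h'
      rw [mem_filter, mem_filter, mem_filter, mem_product, mem_Icc, mem_Icc] at h h'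
      obtain ⟨⟨⟨⟨⟨ha1, ha2⟩, hb1, hb2⟩, hc⟩, hab⟩, hodd⟩ := h
      obtain ⟨⟨⟨⟨⟨ha1', ha2'⟩, hb1', hb2'⟩, hc'⟩, hab'⟩, hodd'⟩ := h'
      simp only [Prod.mk.injEq] at ha1 ha2 hb1 hb2 hc hab hodd ha1' ha2' hb1' hb2' hc' hab' hodd' hh
      obtain ⟨rfl, hm⟩ := hh
      have key : ∀ x : ℕ, 1 ≤ x → x ≤ b → Nat.Coprime x b → x % b = if b = 1 then 0 else x := by
        intro x hx1 hx2 hx
        split_ifs with hb
        · rw [hb, Nat.mod_one]
        · apply Nat.mod_eq_of_lt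
          rcases hx2.lt_or_eq with h | h
          · exact h
          · exfalso
            rw [h] at hx
            have := Nat.coprime_self b |>.1 hx
            exact hb this
      rw [key a ha1 hab hc, key a' ha1' hab' hc'] at hm
      split_ifs at hm with hb
      · rw [Prod.mk.injEq]
        exact ⟨by omega, rfl⟩
      · rw [hm]
  exact_mod_cast h

end Pool.Agent.Q185.HT
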