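import Pool.Agent.Q99.VC.Theta2

/-!
# The theta constants near the cusps
-/

set_option autoImplicit false

namespace Pool.Agent.Q185.HT

open Filter Finset Topology Complex Pool.Agent.Q99.VC
open UpperHalfPlane hiding I
open scoped Real MatrixGroups Modular

/-- the theta constants labelled by the class modulo 2 of the cusps at which they vanish -/
noncomputable def th (v : ZMod 2 × ZMod 2) (τ : ℂ) : ℝ :=
  if v = (1, 0) then ‖t2 τ‖ else if v = (0, 1) then ‖t4 τ‖ else if v = (1, 1) then ‖t3 τ‖ else 0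

/-- the action of the modular group on the labels -/
def act (γ : SL(2, ℤ)) (v : ZMod 2 × ZMod 2) : ZMod 2 × ZMod 2 :=
  (((γ 0 0 : ℤ) : ZMod 2) * v.1 + ((γ 0 1 : ℤ) : ZMod 2) * v.2,
    ((γ 1 0 : ℤ) : ZMod 2) * v.1 + ((γ 1 1 : ℤ) : ZMod 2) * v.2)

theorem act_one (v : ZMod 2 × ZMod 2) : act 1 v = v := by
  unfold act
  simp

theorem act_mul (x y : SL(2, ℤ)) (v : ZMod 2 × ZMod 2) : act (x * y) v = act x (act y v) := by
  unfold act
  have h : ∀ i j, (x * y : SL(2, ℤ)) i j = x i 0 * y 0 j + x i 1 * y 1 j := by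
    intro i j
    rw [Matrix.SpecialLinearGroup.coe_mul, Matrix.mul_apply, Fin.sum_univ_two]
  rw [h, h, h, h]
  push_cast
  ext
  · simp only
    ring
  · simp only
    ring

theorem th_10 (τ : ℂ) : th (1, 0) τ = ‖t2 τ‖ := by
  unfold th
  rw [if_pos rfl]

theorem th_01 (τ : ℂ) : th (0, 1) τ = ‖t4 τ‖ := by
  unfold th
  rw [if_neg (by decide), if_pos rfl]

theorem th_11 (τ : ℂ) : th (1, 1) τ = ‖t3 τ‖ := by
  unfold th
  rw [if_neg (by decide), if_neg (by decide), if_pos rfl]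

theorem th_00 (τ : ℂ) : th (0, 0) τ = 0 := by
  unfold th
  rw [if_neg (by decide), if_neg (by decide), if_neg (by decide)]

theorem label_cases (v : ZMod 2 × ZMod 2) : v = (0, 0) ∨ v = (1, 0) ∨ v = (0, 1) ∨ v = (1, 1) := by
  revert v
  decide

theorem th_T (v : ZMod 2 × ZMod 2) (τ : ℂ) : th (v.1 + v.2, v.2) (τ + 1) = th v τ := by
  rcases label_cases v with rfl | rfl | rfl | rfl
  · rw [show (((0 : ZMod 2), (0 : ZMod 2)).1 + ((0 : ZMod 2), (0 : ZMod 2)).2, ((0 : ZMod 2), (0 : ZMod 2)).2) = ((0 : ZMod 2), (0 : ZMod 2)) by decide,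
      th_00, th_00]
  · rw [show (((1 : ZMod 2), (0 : ZMod 2)).1 + ((1 : ZMod 2), (0 : ZMod 2)).2, ((1 : ZMod 2), (0 : ZMod 2)).2) = ((1 : ZMod 2), (0 : ZMod 2)) by decide,
      th_10, th_10, norm_t2_add_one]
  · rw [show (((0 : ZMod 2), (1 : ZMod 2)).1 + ((0 : ZMod 2), (1 : ZMod 2)).2, ((0 : ZMod 2), (1 : ZMod 2)).2) = ((1 : ZMod 2), (1 : ZMod 2)) by decide,
      th_11, th_01, t3_add_one]
  · rw [show (((1 : ZMod 2), (1 : ZMod 2)).1 + ((1 : ZMod 2), (1 : ZMod 2)).2, ((1 : ZMod 2), (1 : ZMod 2)).2) = ((0 : ZMod 2), (1 : ZMod 2)) by decide,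
      th_01, th_11, t4_add_one]

theorem th_S (v : ZMod 2 × ZMod 2) {τ : ℂ} (hτ : τ ≠ 0) : th (v.2, v.1) (-1 / τ) = ‖τ‖ ^ (1 / 2 : ℝ) * th v τ := by
  have hp : 0 < ‖τ‖ ^ (1 / 2 : ℝ) := Real.rpow_pos_of_pos (norm_pos_iff.2 hτ) _
  have h2 : ‖t2 τ‖ = (‖τ‖ ^ (1 / 2 : ℝ))⁻¹ * ‖t4 (-1 / τ)‖ := by
    rw [t2_S hτ, norm_mul, norm_S hτ]
  have h3 : ‖t3 τ‖ = (‖τ‖ ^ (1 / 2 : ℝ))⁻¹ * ‖t3 (-1 / τ)‖ := by
    rw [t3_S, norm_mul, norm_S hτ]
  have h4 : ‖t4 τ‖ = (‖τ‖ ^ (1 / 2 : ℝ))⁻¹ * ‖t2 (-1 / τ)‖ := by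
    rw [t4_S, norm_mul, norm_S hτ]
  rcases label_cases v with rfl | rfl | rfl | rfl
  · rw [th_00, th_00, mul_zero]
  · show th (0, 1) (-1 / τ) = _
    rw [th_01, th_10, h2, mul_inv_cancel_left₀ hp.ne']
  · show th (1, 0) (-1 / τ) = _
    rw [th_10, th_01, h4, mul_inv_cancel_left₀ hp.ne']
  · rw [th_11, th_11, h3, mul_inv_cancel_left₀ hp.ne']

/-- the transformation law with the labels -/
theorem inv_th (γ : SL(2, ℤ)) (v : ZMod 2 × ZMod 2) (τ : ℍ) :
    ((γ • τ : ℍ).im) ^ (1 / 4 : ℝ) * th (act γ v) (γ • τ : ℍ) = τ.im ^ (1 / 4 : ℝ) * th v τ := by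
  have hmem : γ ∈ Subgroup.closure {ModularGroup.S, ModularGroup.T} := by
    simp [SpecialLinearGroup.SL2Z_generators]
  induction hmem using Subgroup.closure_induction generalizing τ v with
  | mem x hx =>
    rcases hx with rfl | rfl
    · have hne : (τ : ℂ) ≠ 0 := τ.ne_zero
      have e1 : ((ModularGroup.S • τ : ℍ) : ℂ) = -1 / τ := by
        rw [UpperHalfPlane.modular_S_smul]
        simp [neg_div]
      have e2 : (ModularGroup.S • τ : ℍ).im = τ.im / ‖(τ : ℂ)‖ ^ 2 := by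
        rw [ModularGroup.im_smul_eq_div_normSq, ModularGroup.denom_S, Complex.normSq_eq_norm_sq]
      have e0 : act ModularGroup.S v = (v.2, v.1) := by
        unfold act
        simp only [ModularGroup.S]
        ext
        · simp
        · simp
      rw [e0, e1, e2, th_S _ hne]
      have hn : 0 < ‖(τ : ℂ)‖ := norm_pos_iff.2 hne
      rw [Real.div_rpow τ.im_pos.le (by positivity), ← Real.rpow_natCast, ← Real.rpow_mul hn.le]
      have e3 : ((2 : ℕ) : ℝ) * (1 / 4) = 1 / 2 := by norm_num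
      rw [e3]
      have hp : 0 < ‖(τ : ℂ)‖ ^ (1 / 2 : ℝ) := Real.rpow_pos_of_pos hn _
      field_simp
    · have e1 : ((ModularGroup.T • τ : ℍ) : ℂ) = τ + 1 := by
        rw [UpperHalfPlane.modular_T_smul, UpperHalfPlane.coe_vadd]
        push_cast
        ring
      have e2 : (ModularGroup.T • τ : ℍ).im = τ.im := by
        rw [UpperHalfPlane.modular_T_smul, UpperHalfPlane.vadd_im]
      have e0 : act ModularGroup.T v = (v.1 + v.2, v.2) := by
        unfold act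
        simp only [ModularGroup.T]
        ext
        · simp
        · simp
      rw [e0, e1, e2, th_T]
  | one => rw [one_smul, act_one]
  | mul x y _ _ hx hy => rw [mul_smul, act_mul, hx, hy]
  | inv x _ hx =>
    have h := hx (act x⁻¹ v) (x⁻¹ • τ)
    rw [smul_inv_smul, ← act_mul, mul_inv_cancel, act_one] at h
    exact h.symm

theorem th_le_mx (v : ZMod 2 × ZMod 2) (τ : ℂ) : th v τ ≤ mx τ := by
  unfold mx
  rcases label_cases v with rfl | rfl | rfl | rfl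
  · rw [th_00]
    exact (norm_nonneg _).trans (le_max_left _ _)
  · rw [th_10]
    exact le_max_left _ _
  · rw [th_01]
    exact (le_max_right _ _).trans (le_max_right _ _)
  · rw [th_11]
    exact (le_max_left _ _).trans (le_max_right _ _)

/-- the label of the sum over `N` nodes -/
def lab (N : ℕ) : ZMod 2 × ZMod 2 := if Even N then (1, 0) else (1, 1)

theorem th_lab (N : ℕ) (τ : ℂ) : th (lab N) τ = ‖if Even N then t2 τ else t3 τ‖ := by
  unfold lab
  split_ifs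
  · exact th_10 τ
  · exact th_11 τ

/-- **Upper bound** away from the cusps, with the exact power. -/
theorem theta_upper {y₀ : ℝ} {τ : ℂ} (hτ : 0 < τ.im)
    (h : ∀ c d : ℤ, (c ≠ 0 ∨ d ≠ 0) → τ.im ≤ y₀ * ‖(c : ℂ) * τ + d‖ ^ 2) :
    τ.im ^ (1 / 4 : ℝ) * mx τ ≤ 5 / 2 * y₀ ^ (1 / 4 : ℝ) := by
  obtain ⟨γ, hγ⟩ := ModularGroup.exists_smul_mem_fd (⟨τ, hτ⟩ : ℍ)
  have h2 := inv_all mx_add_one (fun τ hτ => mx_S hτ) γ ⟨τ, hτ⟩
  have h3 := ModularGroup.three_le_four_mul_im_sq_of_mem_fd hγ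
  obtain ⟨z, hz⟩ : ∃ z : ℍ, z = γ • (⟨τ, hτ⟩ : ℍ) := ⟨_, rfl⟩
  rw [← hz] at h2 h3
  have hz0 : 0 < z.im := z.im_pos
  have hM := mx_fd (τ := (z : ℂ)) z.im_pos h3
  have hY : z.im ≤ y₀ := by
    have e1 : z.im = τ.im / ‖((γ 1 0 : ℤ) : ℂ) * τ + (γ 1 1 : ℤ)‖ ^ 2 := by
      rw [hz, ModularGroup.im_smul_eq_div_normSq, ModularGroup.denom_apply,
        Complex.normSq_eq_norm_sq]
      rfl
    have hne : (γ 1 0 ≠ 0 ∨ γ 1 1 ≠ 0) := by
      by_contra hcon
      push Not at hcon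
      have hd := γ.det_coe
      rw [Matrix.det_fin_two] at hd
      rw [hcon.1, hcon.2] at hd
      simp at hd
    have h4 := h _ _ hne
    rw [e1]
    have h5 : 0 < ‖((γ 1 0 : ℤ) : ℂ) * τ + (γ 1 1 : ℤ)‖ ^ 2 := by
      by_contra h6
      have h7 : ‖((γ 1 0 : ℤ) : ℂ) * τ + (γ 1 1 : ℤ)‖ ^ 2 = 0 :=
        le_antisymm (not_lt.1 h6) (by positivity)
      rw [h7, mul_zero] at h4
      linarith
    rw [div_le_iff₀ h5]
    exact h4
  rw [show τ.im ^ (1 / 4 : ℝ) * mx τ = z.im ^ (1 / 4 : ℝ) * mx z from h2.symm, mul_comm]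
  have h6 : z.im ^ (1 / 4 : ℝ) ≤ y₀ ^ (1 / 4 : ℝ) := Real.rpow_le_rpow hz0.le hY (by norm_num)
  have h7 : 0 ≤ mx (z : ℂ) := by
    unfold mx
    positivity
  exact mul_le_mul hM h6 (by positivity) (by norm_num)

/-- **Lower bound** near a cusp at which the theta constant does not vanish. -/
theorem theta_lower {Y : ℝ} (hY : 1 ≤ Y) {τ : ℂ} (hτ : 0 < τ.im) {a c : ℤ} (hac : IsCoprime a c)
    {v : ZMod 2 × ZMod 2} (hv0 : v ≠ (0, 0)) (hv : v ≠ ((a : ZMod 2), (c : ZMod 2)))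
    (h : Y * ‖(c : ℂ) * τ - a‖ ^ 2 ≤ τ.im) : 1 / 2 * Y ^ (1 / 4 : ℝ) ≤ τ.im ^ (1 / 4 : ℝ) * th v τ := by
  have hcop : IsCoprime c (-a) := hac.symm.neg_right
  obtain ⟨γ, h10, h11⟩ := hcop.exists_SL2_row 1
  have h2 := inv_th γ v ⟨τ, hτ⟩
  obtain ⟨z, hz⟩ : ∃ z : ℍ, z = γ • (⟨τ, hτ⟩ : ℍ) := ⟨_, rfl⟩
  rw [← hz] at h2
  have hz0 : 0 < z.im := z.im_pos
  have hdet : γ 0 0 * (-a) - γ 0 1 * c = 1 := by
    have hd := γ.det_coe
    rw [Matrix.det_fin_two] at hd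
    have e1 : (γ : Matrix (Fin 2) (Fin 2) ℤ) 1 0 = c := h10
    have e2 : (γ : Matrix (Fin 2) (Fin 2) ℤ) 1 1 = -a := h11
    rw [e1, e2] at hd
    exact hd
  have hYz : Y ≤ z.im := by
    have e1 : z.im = τ.im / ‖(c : ℂ) * τ - a‖ ^ 2 := by
      rw [hz, ModularGroup.im_smul_eq_div_normSq, ModularGroup.denom_apply, h10, h11,
        Complex.normSq_eq_norm_sq]
      congr 3
      push_cast
      rfl
    have h5 : 0 < ‖(c : ℂ) * τ - a‖ ^ 2 := by
      rw [sq_pos_iff, norm_ne_zero_iff]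
      intro h0
      have h6 := congrArg Complex.im h0
      rw [Complex.sub_im, Complex.zero_im, Complex.intCast_im, sub_zero, Complex.mul_im, Complex.intCast_re,
        Complex.intCast_im, zero_mul, add_zero] at h6
      have hc0 : (c : ℝ) = 0 := (mul_eq_zero.1 h6).resolve_right hτ.ne'
      have hc0' : c = 0 := by exact_mod_cast hc0
      rw [hc0', Int.cast_zero, zero_mul, zero_sub, neg_eq_zero, Int.cast_eq_zero] at h0
      rw [h0, hc0'] at hac
      exact not_isCoprime_zero_zero hac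
    rw [e1, le_div_iff₀ h5]
    exact h
  have hfd : 3 ≤ 4 * (z : ℂ).im ^ 2 := by
    have : 1 ≤ (z : ℂ).im := hY.trans hYz
    nlinarith
  have hlow : 1 / 2 ≤ th (act γ v) (z : ℂ) := by
    have hne0 : act γ v ≠ (0, 0) := by
      intro h0
      apply hv0
      have e1 : act γ⁻¹ (act γ v) = v := by rw [← act_mul, inv_mul_cancel, act_one]
      rw [h0] at e1
      rw [← e1]
      unfold act
      simp
    have hne1 : act γ v ≠ (1, 0) := by
      intro h0
      have e1 : (c : ZMod 2) * v.1 + ((-a : ℤ) : ZMod 2) * v.2 = 0 := by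
        have e2 := congrArg Prod.snd h0
        unfold act at e2
        simp only [h10, h11] at e2
        exact e2
      have e3 : ((γ 0 0 : ℤ) : ZMod 2) * (-(a : ZMod 2)) - ((γ 0 1 : ℤ) : ZMod 2) * c = 1 := by
        have := congrArg (Int.cast : ℤ → ZMod 2) hdet
        push_cast at this
        exact this
      push_cast at e1
      have key : ∀ p q x y v1 v2 : ZMod 2, p * (-x) - q * y = 1 → y * v1 + -x * v2 = 0 → (v1, v2) ≠ (0, 0) →
          (v1, v2) = (x, y) := by decide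
      exact hv (key _ _ _ _ v.1 v.2 e3 e1 hv0)
    rcases label_cases (act γ v) with h0 | h0 | h0 | h0
    · exact absurd h0 hne0
    · exact absurd h0 hne1
    · rw [h0, th_01]
      exact (t4_fd z.im_pos hfd).1
    · rw [h0, th_11]
      exact (t3_fd z.im_pos hfd).1
  have e4 : τ.im ^ (1 / 4 : ℝ) * th v τ = z.im ^ (1 / 4 : ℝ) * th (act γ v) z := h2.symm
  rw [e4, mul_comm]
  exact mul_le_mul (Real.rpow_le_rpow (by linarith) hYz (by norm_num)) hlow (by norm_num) (by positivity)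

end Pool.Agent.Q185.HT
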