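import Pool.Agent.Q99.VC.Theta6
import Pool.Agent.Q185.HT.Cusp

/-!
# The sums over the nodes and the theta constants, up to an additive constant
-/

set_option autoImplicit false
set_option maxHeartbeats 1000000

namespace Pool.Agent.Q185.HT

open Filter Finset Topology Metric Pool.Agent.Q99.VC
open Pool.Agent.W711.HT hiding XX sv
open Pool.Agent.W719.AX (UX EXY GX KXD cv)
open Pool.Agent.W719.AR (ps)
open Pool.Agent.TH563.UV
open Pool.Agent.W85.HT (Kc Kc_mem Kc_compact)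
open scoped Real

/-- the sum with a circle is a multiple of a theta constant, up to a bounded error -/
theorem sums_exact {X : ℕ → ℂ → ℂ} {P : ℕ → ℂ} {a₂ A₀ : ℂ} {C : ℝ} (ha : a₂.re < 0)
    (hA₀ : A₀ ≠ 0) (hC : 0 < C)
    (h : ∀ᶠ N : ℕ in atTop, ∀ k < N,
      ‖P N * X N (ps N k) - A₀ * Complex.exp (N * (a₂ * (ps N k : ℂ) ^ 2))‖ ≤ C / N) :
    ∃ α β a C' : ℝ, 0 < β ∧ 0 < a ∧ 0 < C' ∧ ∀ᶠ N : ℕ in atTop, ∀ A : ℤ,
      |‖P N * Zs X A N‖ - a * th (lab N) (ta α β N A)| ≤ C' := by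
  have hp := Real.pi_gt_three
  obtain ⟨β, hβ⟩ : ∃ β : ℝ, β = -(4 * π * a₂.re) := ⟨_, rfl⟩
  have hβ0 : 0 < β := by rw [hβ]; nlinarith
  obtain ⟨T, hT, htail⟩ := theta_tail hβ0
  obtain ⟨a, hadef⟩ : ∃ a : ℝ, a = ‖A₀‖ := ⟨_, rfl⟩
  have ha0 : 0 < a := by rw [hadef]; exact norm_pos_iff.2 hA₀
  refine ⟨4 * π * a₂.im, β, a, C + a * T, hβ0, ha0, by positivity, ?_⟩
  filter_upwards [h, eventually_ge_atTop 1] with N h1 hN1 A
  have hN0 : 0 < N := hN1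
  have hNr : (0 : ℝ) < N := by exact_mod_cast hN0
  obtain ⟨τ, hτ⟩ : ∃ τ : ℂ, τ = ta (4 * π * a₂.im) β N A := ⟨_, rfl⟩
  rw [← hτ]
  have hsumN : ∀ (f : ℕ → ℂ) (B : ℝ), (∀ k < N, ‖f k‖ ≤ B / N) → ‖∑ k ∈ range N, f k‖ ≤ B := by
    intro f B hf
    refine (norm_sum_le _ _).trans ?_
    refine (Finset.sum_le_card_nsmul _ _ (B / N) fun k hk => hf k (Finset.mem_range.1 hk)).trans ?_
    rw [Finset.card_range, nsmul_eq_mul]
    exact le_of_eq (by field_simp)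
  -- the Gaussian sum
  have hG : ‖P N * Zs X A N - A₀ * (if Even N then t2 τ else t3 τ)‖ ≤ C + a * T := by
    have e1 : P N * Zs X A N - A₀ * (if Even N then t2 τ else t3 τ) =
        (∑ k ∈ range N, Ea A N (ps N k) * (P N * X N (ps N k) -
          A₀ * Complex.exp (N * (a₂ * (ps N k : ℂ) ^ 2)))) -
        A₀ * ((if Even N then t2 τ else t3 τ) - ∑ j ∈ range N, ft N τ j) := by
      have e2 : ∑ k ∈ range N, Ea A N (ps N k) * (P N * X N (ps N k) -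
          A₀ * Complex.exp (N * (a₂ * (ps N k : ℂ) ^ 2))) =
          P N * Zs X A N - A₀ * ∑ j ∈ range N, ft N τ j := by
        unfold Zs
        rw [Finset.mul_sum, Finset.mul_sum, ← Finset.sum_sub_distrib]
        refine Finset.sum_congr rfl fun k _ => ?_
        have := Ea_gauss hN0 A a₂ k
        rw [← hβ, ← hτ] at this
        rw [← this]
        ring
      rw [e2]
      ring
    rw [e1]
    refine (norm_sub_le _ _).trans (add_le_add ?_ ?_)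
    · refine hsumN _ _ fun k hk => ?_
      rw [norm_mul, norm_Ea, one_mul]
      exact h1 k hk
    · rw [norm_mul, ← hadef]
      refine mul_le_mul_of_nonneg_left ?_ ha0.le
      refine htail N hN0 τ ?_
      rw [hτ, ta_im]
  rw [th_lab]
  have e : a * ‖if Even N then t2 τ else t3 τ‖ = ‖A₀ * (if Even N then t2 τ else t3 τ)‖ := by
    rw [norm_mul, hadef]
  rw [e]
  exact (abs_norm_sub_norm_le _ _).trans hG

/-- **The data of a tree** -/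
theorem theta_data' : ∃ K : ℝ, 0 < K ∧ ∀ t : Tb, t.Below K → 1 ≤ t.nc → ∃ F0 : ℂ,
    (∃ α β a C' : ℝ, 0 < β ∧ 0 < a ∧ 0 < C' ∧ ∀ᶠ N : ℕ in atTop, ∀ A : ℤ,
      |‖Pn t.ne F0 N * Zs (XX t) A N‖ - a * th (lab N) (ta α β N A)| ≤ C') ∧
    (∀ b : ℤ, ∃ y : ℕ → ℂ, y 0 ≠ 0 ∧ UX (fun (N : ℕ) (_ : Unit) => (Real.sqrt N : ℂ) *
      (((N : ℂ) ^ (2 * t.ne) * (-1) ^ (N * t.ne) * Complex.exp (-(N * F0))) *
        upp (1 / N) fun ψ => Eb true b N ψ * XX t N ψ * kr N ψ)) (fun k _ => y k) Set.univ) := by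
  obtain ⟨ρ, τ, κ, c, s, dl, hK⟩ := Pool.Agent.W719.AR.f_KER
  obtain ⟨ρ₂, τ₂, hρ₂, hτ₂, Ak, hAk⟩ :=
    (Pool.Agent.W719.AX.f_KXC Pool.Agent.W719.AX.f_WIN) ρ τ κ c s dl hK
  obtain ⟨ε₀, K, hε, hε1, hK0, hre, h1, h2⟩ := f_STEPU ρ τ κ c s dl hK ρ₂ τ₂ Ak hρ₂ hτ₂ hAk
  obtain ⟨b1, b2⟩ := Pool.Agent.TH929.stepb ρ τ κ c s dl hK ρ₂ τ₂ Ak hρ₂ hτ₂ hAk ε₀ hε hε1 hre
  obtain ⟨h0, hp⟩ := f_PRU ρ τ κ c s dl hK ε₀ hε
  obtain ⟨h0x, hpx⟩ := (Pool.Agent.W52.AX.prdx Pool.Agent.W303.AX.uxmul) ρ₂ τ₂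
  refine ⟨K, hK0, fun t hB ht => ?_⟩
  obtain ⟨F, A, hG, hA, -⟩ := mainu_ind hK h0 hp h0x hpx h1 b1 t hB
  refine ⟨F 0, ?_, fun b => ?_⟩
  · obtain ⟨a₂, A₀, C, ha₂, hA₀, hC, hnode⟩ := node_est hK hρ₂ hτ₂ hAk.hρ hAk.hτ hre ht hG hA
    exact sums_exact ha₂ hA₀ hC (hnode.mono fun N h k hk => (h k hk).1)
  · obtain ⟨y, hy0, hux⟩ := b2 t.nc t.ne (XX t) F A ht hG hA b
    refine ⟨y, hy0, ?_⟩
    have e : (fun (N : ℕ) (_ : Unit) => (Real.sqrt N : ℂ) *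
      (((N : ℂ) ^ (2 * t.ne) * (-1) ^ (N * t.ne) * Complex.exp (-(N * F 0))) *
        upp (1 / N) fun ψ => Eb true b N ψ * XX t N ψ * kr N ψ)) =
        (fun (N : ℕ) (_ : Unit) => (N : ℂ) ^ (2 * t.ne) * (Real.sqrt N : ℂ) *
          (-1) ^ (N * (t.ne + 1)) * Complex.exp (-(N * (F 0 + π * Complex.I))) *
          upp (1 / N) fun ψ => Eb true b N ψ * XX t N ψ * kr N ψ) := by
      funext N _
      rw [sign_conv, add_sub_cancel_right]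
    rw [e]
    exact hux

end Pool.Agent.Q185.HT
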