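import Pool.Agent.Q185.HT.Tail

/-!
# The power law for quantities close to a theta constant on a horocycle
-/

set_option autoImplicit false

namespace Pool.Agent.Q185.HT

open Filter Finset Topology Complex Pool.Agent.Q99.VC
open scoped Real

theorem q4 {x : ℝ} (hx : 0 ≤ x) : (x ^ (1 / 4 : ℝ)) ^ 4 = x := by
  rw [← Real.rpow_natCast, ← Real.rpow_mul hx]
  norm_num

open Classical in
/-- **The power law.** -/
theorem law {z : ℕ → ℤ → ℝ} {α β a C : ℝ} (hβ : 0 < β) (ha : 0 < a) (hC : 0 < C)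
    (h : ∀ᶠ N : ℕ in atTop, ∀ A : ℤ, |z N A - a * th (lab N) (ta α β N A)| ≤ C) :
    ∃ c₁ C₁ : ℝ, 0 < c₁ ∧ 0 < C₁ ∧ ∀ᶠ N : ℕ in atTop,
      (∀ A : ℤ, z N A ≤ C₁ * (N : ℝ) ^ (1 / 2 : ℝ)) ∧
      ∀ (B : ℤ) (L : ℕ), 4 * N ≤ L →
        (∀ R : ℝ, 1 ≤ R → (((Finset.Ico B (B + L)).filter fun A => R * (N : ℝ) ^ (1 / 4 : ℝ) ≤ z N A).card : ℝ) ≤
          C₁ * L / R ^ 4) ∧
        (∀ R : ℝ, 1 ≤ R → R ≤ c₁ * (N : ℝ) ^ (1 / 4 : ℝ) →
          c₁ * L / R ^ 4 ≤ (((Finset.Ico B (B + L)).filter fun A => R * (N : ℝ) ^ (1 / 4 : ℝ) ≤ z N A).card : ℝ)) := by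
  obtain ⟨η, hη, hgood⟩ := count_good hβ α
  obtain ⟨y₁, hy₁⟩ : ∃ y₁ : ℝ, y₁ = max 1 (256 * β / a ^ 4) := ⟨_, rfl⟩
  have hy1 : 1 ≤ y₁ := by rw [hy₁]; exact le_max_left _ _
  have hy2 : 256 * β / a ^ 4 ≤ y₁ := by rw [hy₁]; exact le_max_right _ _
  have hy0 : 0 < y₁ := by linarith
  obtain ⟨c₁, hc₁⟩ : ∃ c₁ : ℝ, c₁ = min ((η / y₁) ^ (1 / 4 : ℝ)) (η / y₁) := ⟨_, rfl⟩
  have hc0 : 0 < c₁ := by rw [hc₁]; exact lt_min (by positivity) (by positivity)
  have hc1 : c₁ ≤ (η / y₁) ^ (1 / 4 : ℝ) := by rw [hc₁]; exact min_le_left _ _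
  have hc2 : c₁ ≤ η / y₁ := by rw [hc₁]; exact min_le_right _ _
  obtain ⟨D, hD⟩ : ∃ D : ℝ, D = 1250 * a ^ 4 / β := ⟨_, rfl⟩
  have hD0 : 0 < D := by rw [hD]; positivity
  obtain ⟨C₁, hC₁⟩ : ∃ C₁ : ℝ, C₁ = max (D * max 1 (3 * (2 + 1 / β))) (a * (5 / 2) / β ^ (1 / 2 : ℝ) + C) := ⟨_, rfl⟩
  have hC1 : D * max 1 (3 * (2 + 1 / β)) ≤ C₁ := by rw [hC₁]; exact le_max_left _ _
  have hC2 : a * (5 / 2) / β ^ (1 / 2 : ℝ) + C ≤ C₁ := by rw [hC₁]; exact le_max_right _ _
  have hCD : D ≤ C₁ := le_trans (by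
    have : (1 : ℝ) ≤ max 1 (3 * (2 + 1 / β)) := le_max_left _ _
    nlinarith) hC1
  have hCD' : D * (3 * (2 + 1 / β)) ≤ C₁ := le_trans (mul_le_mul_of_nonneg_left (le_max_right _ _) hD0.le) hC1
  have hC0 : 0 < C₁ := lt_of_lt_of_le hD0 hCD
  have hZ : Tendsto (fun N : ℕ => (N : ℝ) ^ (1 / 4 : ℝ)) atTop atTop :=
    (tendsto_rpow_atTop (by norm_num : (0 : ℝ) < 1 / 4)).comp tendsto_natCast_atTop_atTop
  refine ⟨c₁, C₁, hc0, hC0, ?_⟩
  filter_upwards [h, hZ.eventually_ge_atTop (2 * C), hZ.eventually_ge_atTop 1, eventually_ge_atTop 2,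
    tendsto_natCast_atTop_atTop.eventually_gt_atTop (4 * β), tendsto_natCast_atTop_atTop.eventually_ge_atTop β]
    with N h1 h2 h3 h4 h5 h6
  have hNr : (0 : ℝ) < N := by exact_mod_cast (by omega : 0 < N)
  have hN0 : 0 < N := by omega
  obtain ⟨u, hu⟩ : ∃ u : ℝ, u = (N : ℝ) ^ (1 / 4 : ℝ) := ⟨_, rfl⟩
  rw [← hu] at h2 h3
  have hu0 : 0 < u := by linarith
  have hu4 : u ^ 4 = N := by rw [hu]; exact q4 hNr.le
  obtain ⟨b, hb⟩ : ∃ b : ℝ, b = β ^ (1 / 4 : ℝ) := ⟨_, rfl⟩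
  have hb0 : 0 < b := by rw [hb]; positivity
  have hb4 : b ^ 4 = β := by rw [hb]; exact q4 hβ.le
  have him : ∀ A : ℤ, (ta α β N A).im ^ (1 / 4 : ℝ) = b / u := by
    intro A
    rw [ta_im, Real.div_rpow hβ.le hNr.le, ← hb, ← hu]
  have him0 : ∀ A : ℤ, 0 < (ta α β N A).im := fun A => by rw [ta_im]; positivity
  constructor
  · intro A
    have h7 := h1 A
    have h8 : ∀ c d : ℤ, (c ≠ 0 ∨ d ≠ 0) → (ta α β N A).im ≤ (N / β) * ‖(c : ℂ) * ta α β N A + d‖ ^ 2 := by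
      intro c d hcd
      rw [norm_ta hN0, ta_im]
      by_cases hc : c = 0
      · have hd : d ≠ 0 := by simpa [hc] using hcd
        have hd1 : (1 : ℝ) ≤ (d : ℝ) ^ 2 := by
          have : (1 : ℤ) ≤ d ^ 2 := by
            have : (0 : ℤ) < d ^ 2 := by positivity
            exact this
          exact_mod_cast this
        rw [hc]
        push_cast
        have e1 : ((0 * ((A:ℝ) + α) + d * N) ^ 2 + (0 * β) ^ 2) / (N : ℝ) ^ 2 = (d : ℝ) ^ 2 := by
          field_simp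
          ring
        rw [e1]
        have e2 : β / N ≤ 1 := by rw [div_le_one hNr]; exact h6
        have e3 : 1 ≤ N / β := by rw [le_div_iff₀ hβ]; linarith
        nlinarith
      · have hc1 : (1 : ℝ) ≤ (c : ℝ) ^ 2 := by
          have : (1 : ℤ) ≤ c ^ 2 := by
            have : (0 : ℤ) < c ^ 2 := by positivity
            exact this
          exact_mod_cast this
        have e1 : β / N = (N / β) * ((1 * β ^ 2) / (N : ℝ) ^ 2) := by field_simp
        rw [e1]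
        gcongr
        nlinarith [sq_nonneg ((c : ℝ) * (A + α) + d * N), mul_nonneg (sub_nonneg.2 hc1) (sq_nonneg β)]
    have h9 := theta_upper (him0 A) h8
    rw [him A] at h9
    have h10 := th_le_mx (lab N) (ta α β N A)
    obtain ⟨y, hy⟩ : ∃ y : ℝ, y = mx (ta α β N A) := ⟨_, rfl⟩
    rw [← hy] at h9 h10
    have e1 : ((N : ℝ) / β) ^ (1 / 4 : ℝ) = u / b := by rw [Real.div_rpow hNr.le hβ.le, ← hb, ← hu]
    rw [e1, div_mul_eq_mul_div, div_le_iff₀ hu0] at h9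
    have e2 : (N : ℝ) ^ (1 / 2 : ℝ) = u ^ 2 := by
      rw [hu, ← Real.rpow_natCast, ← Real.rpow_mul hNr.le]
      norm_num
    have e3 : β ^ (1 / 2 : ℝ) = b ^ 2 := by
      rw [hb, ← Real.rpow_natCast, ← Real.rpow_mul hβ.le]
      norm_num
    rw [e3] at hC2
    rw [e2]
    have e4 : y ≤ 5 / 2 * (u ^ 2 / b ^ 2) := by
      have : 5 / 2 * (u / b) * u = b * (5 / 2 * (u ^ 2 / b ^ 2)) := by field_simp
      rw [this] at h9
      exact le_of_mul_le_mul_left h9 hb0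
    rw [abs_le] at h7
    have e5 : a * th (lab N) (ta α β N A) ≤ a * (5 / 2 * (u ^ 2 / b ^ 2)) :=
      mul_le_mul_of_nonneg_left (h10.trans e4) ha.le
    have e6 : C ≤ C * u ^ 2 := le_mul_of_one_le_right hC.le (one_le_pow₀ h3)
    have e7 : (a * (5 / 2) / b ^ 2 + C) * u ^ 2 ≤ C₁ * u ^ 2 := mul_le_mul_of_nonneg_right hC2 (by positivity)
    have e8 : (a * (5 / 2) / b ^ 2 + C) * u ^ 2 = a * (5 / 2 * (u ^ 2 / b ^ 2)) + C * u ^ 2 := by field_simp
    linarith [h7.2]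
  · intro B L hL
    have hLr : (0 : ℝ) ≤ L := Nat.cast_nonneg L
    constructor
    · intro R hR
      have hR0 : 0 < R := by linarith
      have hR4 : 0 < R ^ 4 := by positivity
      obtain ⟨y₀, hy₀⟩ : ∃ y₀ : ℝ, y₀ = R ^ 4 / D := ⟨_, rfl⟩
      rcases lt_or_ge y₀ 1 with hcase | hcase
      · have e1 : (((Finset.Ico B (B + L)).filter fun A => R * (N : ℝ) ^ (1 / 4 : ℝ) ≤ z N A).card : ℝ) ≤ L := by
          have : ((Finset.Ico B (B + L)).filter fun A => R * (N : ℝ) ^ (1 / 4 : ℝ) ≤ z N A).card ≤ L := by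
            refine (card_filter_le _ _).trans (le_of_eq ?_)
            simp
          exact_mod_cast this
        refine e1.trans ?_
        rw [hy₀, div_lt_one hD0] at hcase
        rw [le_div_iff₀ hR4, mul_comm]
        exact mul_le_mul_of_nonneg_right (hcase.le.trans hCD) hLr
      · have e0 : N ≤ L := by omega
        have e1 := count_bad' hβ α hcase h5 B L e0
        have e2 : ((Finset.Ico B (B + L)).filter fun A => R * (N : ℝ) ^ (1 / 4 : ℝ) ≤ z N A) ⊆
            (Finset.Ico B (B + L)).filter (Bad α β y₀ N) := by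
          intro A hA
          rw [mem_filter] at hA ⊢
          refine ⟨hA.1, ?_⟩
          intro hbad
          have h9 := theta_upper (him0 A) hbad
          rw [him A] at h9
          have h10 := th_le_mx (lab N) (ta α β N A)
          have h11 := h1 A
          rw [abs_le] at h11
          have h12 := hA.2
          rw [← hu] at h12
          have hRu : C ≤ R * u / 2 := by nlinarith
          have h13 : R * u / 2 ≤ a * mx (ta α β N A) := by
            have := mul_le_mul_of_nonneg_left h10 ha.le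
            linarith [h11.2]
          obtain ⟨y, hy⟩ : ∃ y : ℝ, y = mx (ta α β N A) := ⟨_, rfl⟩
          rw [← hy] at h9 h13
          obtain ⟨v, hv⟩ : ∃ v : ℝ, v = y₀ ^ (1 / 4 : ℝ) := ⟨_, rfl⟩
          have hv4 : v ^ 4 = y₀ := by rw [hv]; exact q4 (by linarith)
          rw [← hv, div_mul_eq_mul_div, div_le_iff₀ hu0] at h9
          have h14 : b * R ≤ 5 * a * v := by
            have e3 : (b * R) * u ≤ (5 * a * v) * u := by nlinarith
            exact le_of_mul_le_mul_right e3 hu0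
          have h15 : (b * R) ^ 4 ≤ (5 * a * v) ^ 4 := pow_le_pow_left₀ (by positivity) h14 4
          rw [mul_pow, mul_pow, mul_pow, hb4, hv4, hy₀, hD] at h15
          have h16 : (5 : ℝ) ^ 4 * a ^ 4 * (R ^ 4 / (1250 * a ^ 4 / β)) = β * R ^ 4 / 2 := by
            field_simp
            norm_num
          rw [h16] at h15
          have : 0 < β * R ^ 4 := by positivity
          linarith
        have e3 : (((Finset.Ico B (B + L)).filter fun A => R * (N : ℝ) ^ (1 / 4 : ℝ) ≤ z N A).card : ℝ) ≤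
            L * (3 * (2 + 1 / β) / y₀) := by
          refine le_trans ?_ e1
          exact_mod_cast card_le_card e2
        refine e3.trans ?_
        rw [hy₀]
        have e4 : (L : ℝ) * (3 * (2 + 1 / β) / (R ^ 4 / D)) = (D * (3 * (2 + 1 / β))) * L / R ^ 4 := by
          field_simp
        rw [e4]
        gcongr
    · intro R hR hRc
      have hR0 : 0 < R := by linarith
      have hR4 : 0 < R ^ 4 := by positivity
      rw [← hu] at hRc
      have hR41 : 1 ≤ R ^ 4 := one_le_pow₀ hR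
      have hY1 : 1 ≤ y₁ * R ^ 4 := by nlinarith
      have hYN : y₁ * R ^ 4 ≤ η * N := by
        have e1 : R ≤ (η / y₁) ^ (1 / 4 : ℝ) * u := hRc.trans (mul_le_mul_of_nonneg_right hc1 hu0.le)
        have e2 : R ^ 4 ≤ ((η / y₁) ^ (1 / 4 : ℝ) * u) ^ 4 := pow_le_pow_left₀ hR0.le e1 4
        rw [mul_pow, q4 (by positivity), hu4] at e2
        calc y₁ * R ^ 4 ≤ y₁ * (η / y₁ * N) := mul_le_mul_of_nonneg_left e2 hy0.le
          _ = η * N := by field_simp
      obtain ⟨T, hT1, hT2, hT3⟩ := hgood N h4 (y₁ * R ^ 4) hY1 hYN B L hL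
      have e1 : T ⊆ (Finset.Ico B (B + L)).filter fun A => R * (N : ℝ) ^ (1 / 4 : ℝ) ≤ z N A := by
        intro A hA
        rw [mem_filter]
        refine ⟨hT1 hA, ?_⟩
        have h7 := hT3 A hA
        rw [him A] at h7
        have h8 := h1 A
        rw [abs_le] at h8
        rw [← hu]
        obtain ⟨v, hv⟩ : ∃ v : ℝ, v = (y₁ * R ^ 4) ^ (1 / 4 : ℝ) := ⟨_, rfl⟩
        have hv4 : v ^ 4 = y₁ * R ^ 4 := by rw [hv]; exact q4 (by positivity)
        have hv0 : 0 ≤ v := by rw [hv]; positivity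
        have h9 : 4 * R * b / a ≤ v := by
          have e3 : (4 * R * b / a) ^ 4 ≤ v ^ 4 := by
            rw [hv4, div_pow, mul_pow, mul_pow, hb4]
            calc (4 : ℝ) ^ 4 * R ^ 4 * β / a ^ 4 = (256 * β / a ^ 4) * R ^ 4 := by ring
              _ ≤ y₁ * R ^ 4 := by gcongr
          exact le_of_pow_le_pow_left₀ (by norm_num) hv0 e3
        rw [← hv, div_mul_eq_mul_div b u, le_div_iff₀ hu0] at h7
        obtain ⟨x, hx⟩ : ∃ x : ℝ, x = th (lab N) (ta α β N A) := ⟨_, rfl⟩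
        rw [← hx] at h7 h8
        rw [div_le_iff₀ ha] at h9
        -- `b x ≥ v u / 2`, `v a ≥ 4 R b`
        have h10 : 2 * R * u ≤ a * x := by
          have e4 : b * (2 * R * u) ≤ b * (a * x) := by nlinarith
          exact le_of_mul_le_mul_left e4 hb0
        have h11 : C ≤ R * u := by nlinarith
        linarith [h8.1]
      have e2 : (T.card : ℝ) ≤ (((Finset.Ico B (B + L)).filter fun A => R * (N : ℝ) ^ (1 / 4 : ℝ) ≤ z N A).card : ℝ) := by
        exact_mod_cast card_le_card e1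
      refine le_trans ?_ (hT2.trans e2)
      calc c₁ * L / R ^ 4 ≤ (η / y₁) * L / R ^ 4 := by gcongr
        _ = η * L / (y₁ * R ^ 4) := by field_simp

end Pool.Agent.Q185.HT
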