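import Mathlib

/-!
# Moments from a power law for the tail
-/

set_option autoImplicit false

namespace Pool.Agent.Q185.HT

open Filter Finset Topology

/-- the size of the `p`-th moment of a distribution with tail `R ^ (-4)` cut off at `N ^ (1/4)` -/
noncomputable def size (p : ℝ) (N : ℕ) : ℝ :=
  if p < 4 then 1 else if p = 4 then Real.log N else (N : ℝ) ^ (p / 4 - 1)

theorem pow_four (j : ℕ) : ((2 : ℝ) ^ j) ^ 4 = 16 ^ j := by
  rw [← pow_mul, mul_comm, pow_mul]
  norm_num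

/-- pointwise upper bound -/
theorem point_upper {p : ℝ} (hp : 0 < p) {x : ℝ} (hx : 0 ≤ x) {J : ℕ} (hJ : x < 2 ^ J) :
    x ^ p ≤ 1 + ∑ j ∈ range J, (if (2 : ℝ) ^ j ≤ x then ((2 : ℝ) ^ (j + 1)) ^ p else 0) := by
  have hs : 0 ≤ ∑ j ∈ range J, (if (2 : ℝ) ^ j ≤ x then ((2 : ℝ) ^ (j + 1)) ^ p else 0) := by
    apply sum_nonneg
    intro j _
    split_ifs
    · positivity
    · exact le_rfl
  rcases lt_or_ge x 1 with h | h
  · have := Real.rpow_le_one hx h.le hp.le
    linarith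
  · -- the dyadic interval
    obtain ⟨k, hk1, hk2⟩ : ∃ k : ℕ, (2 : ℝ) ^ k ≤ x ∧ x < 2 ^ (k + 1) := exists_nat_pow_near h (by norm_num)
    have hkJ : k < J := by
      by_contra hcon
      push Not at hcon
      have : (2 : ℝ) ^ J ≤ 2 ^ k := pow_le_pow_right₀ (by norm_num) hcon
      linarith
    have h1 : (if (2 : ℝ) ^ k ≤ x then ((2 : ℝ) ^ (k + 1)) ^ p else 0) ≤
        ∑ j ∈ range J, (if (2 : ℝ) ^ j ≤ x then ((2 : ℝ) ^ (j + 1)) ^ p else 0) := by
      apply single_le_sum (f := fun j => (if (2 : ℝ) ^ j ≤ x then ((2 : ℝ) ^ (j + 1)) ^ p else 0)) _ (mem_range.2 hkJ)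
      intro j _
      split_ifs
      · positivity
      · exact le_rfl
    rw [if_pos hk1] at h1
    have h2 : x ^ p ≤ ((2 : ℝ) ^ (k + 1)) ^ p := Real.rpow_le_rpow hx hk2.le hp.le
    linarith

/-- pointwise lower bound -/
theorem point_lower {x : ℝ} (hx : 0 ≤ x) (J : ℕ) :
    15 / 16 * ∑ j ∈ range J, (if (2 : ℝ) ^ j ≤ x then (16 : ℝ) ^ j else 0) ≤ x ^ (4 : ℝ) := by
  have hx4 : x ^ (4 : ℝ) = x ^ 4 := by
    rw [← Real.rpow_natCast]
    norm_num
  rw [hx4]
  rcases lt_or_ge x 1 with h | h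
  · have : ∑ j ∈ range J, (if (2 : ℝ) ^ j ≤ x then (16 : ℝ) ^ j else 0) = 0 := by
      apply sum_eq_zero
      intro j _
      rw [if_neg]
      have : (1 : ℝ) ≤ 2 ^ j := one_le_pow₀ (by norm_num)
      linarith
    rw [this, mul_zero]
    positivity
  · obtain ⟨k, hk1, hk2⟩ : ∃ k : ℕ, (2 : ℝ) ^ k ≤ x ∧ x < 2 ^ (k + 1) := exists_nat_pow_near h (by norm_num)
    have h1 : ∑ j ∈ range J, (if (2 : ℝ) ^ j ≤ x then (16 : ℝ) ^ j else 0) ≤ ∑ j ∈ range (k + 1), (16 : ℝ) ^ j := by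
      rw [← sum_filter]
      apply sum_le_sum_of_subset_of_nonneg
      · intro j hj
        rw [mem_filter, mem_range] at hj
        rw [mem_range]
        by_contra hcon
        push Not at hcon
        have : (2 : ℝ) ^ (k + 1) ≤ 2 ^ j := pow_le_pow_right₀ (by norm_num) hcon
        linarith [hj.2]
      · intro j _ _
        positivity
    have h2 : ∑ j ∈ range (k + 1), (16 : ℝ) ^ j = ((16 : ℝ) ^ (k + 1) - 1) / 15 := by
      rw [geom_sum_eq (by norm_num)]
      norm_num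
    have h3 : (16 : ℝ) ^ k ≤ x ^ 4 := by
      rw [← pow_four]
      exact pow_le_pow_left₀ (by positivity) hk1 4
    rw [h2] at h1
    have h4 : (16 : ℝ) ^ (k + 1) = 16 * 16 ^ k := by rw [pow_succ]; ring
    rw [h4] at h1
    linarith

/-- **Moments.** -/
theorem moments {c C p : ℝ} (hc : 0 < c) (hC : 0 < C) (hp : 0 < p) : ∃ c' C' : ℝ, 0 < c' ∧ 0 < C' ∧
    ∀ᶠ N : ℕ in atTop, ∀ (S : Finset ℤ) (x : ℤ → ℝ), (∀ A, 0 ≤ x A) → (∀ A ∈ S, x A ≤ C * (N : ℝ) ^ (1 / 4 : ℝ)) →
      (∀ R : ℝ, 1 ≤ R → ((S.filter fun A => R ≤ x A).card : ℝ) ≤ C * S.card / R ^ 4) →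
      (∀ R : ℝ, 1 ≤ R → R ≤ c * (N : ℝ) ^ (1 / 4 : ℝ) → c * S.card / R ^ 4 ≤ ((S.filter fun A => R ≤ x A).card : ℝ)) →
      c' * size p N * S.card ≤ ∑ A ∈ S, (x A) ^ p ∧ ∑ A ∈ S, (x A) ^ p ≤ C' * size p N * S.card := by
  classical
  obtain ⟨q, hq⟩ : ∃ q : ℝ, q = (2 : ℝ) ^ (p - 4) := ⟨_, rfl⟩
  have hq0 : 0 < q := by rw [hq]; positivity
  have hlog2 : 0 < Real.log 2 := Real.log_pos (by norm_num)
  -- general upper bound
  have hup : ∀ (N : ℕ) (S : Finset ℤ) (x : ℤ → ℝ), (∀ A, 0 ≤ x A) → ∀ J : ℕ, (∀ A ∈ S, x A < 2 ^ J) →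
      (∀ R : ℝ, 1 ≤ R → ((S.filter fun A => R ≤ x A).card : ℝ) ≤ C * S.card / R ^ 4) →
      ∑ A ∈ S, (x A) ^ p ≤ (1 + 2 ^ p * C * ∑ j ∈ range J, q ^ j) * S.card := by
    intro N S x hx J hJ hR
    calc ∑ A ∈ S, (x A) ^ p ≤ ∑ A ∈ S, (1 + ∑ j ∈ range J, (if (2 : ℝ) ^ j ≤ x A then ((2 : ℝ) ^ (j + 1)) ^ p else 0)) :=
          sum_le_sum fun A hA => point_upper hp (hx A) (hJ A hA)
      _ = S.card + ∑ j ∈ range J, ∑ A ∈ S, (if (2 : ℝ) ^ j ≤ x A then ((2 : ℝ) ^ (j + 1)) ^ p else 0) := by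
          rw [sum_add_distrib, sum_comm]
          simp
      _ = S.card + ∑ j ∈ range J, ((S.filter fun A => (2 : ℝ) ^ j ≤ x A).card : ℝ) * ((2 : ℝ) ^ (j + 1)) ^ p := by
          congr 1
          refine sum_congr rfl fun j _ => ?_
          rw [← sum_filter, sum_const, nsmul_eq_mul]
      _ ≤ S.card + ∑ j ∈ range J, 2 ^ p * C * S.card * q ^ j := by
          refine add_le_add le_rfl (sum_le_sum fun j _ => ?_)
          have h1 := hR (2 ^ j) (one_le_pow₀ (by norm_num))
          calc ((S.filter fun A => (2 : ℝ) ^ j ≤ x A).card : ℝ) * ((2 : ℝ) ^ (j + 1)) ^ p ≤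
                (C * S.card / ((2 : ℝ) ^ j) ^ 4) * ((2 : ℝ) ^ (j + 1)) ^ p := by gcongr
            _ = 2 ^ p * C * S.card * q ^ j := by
                have e1 : ((2 : ℝ) ^ (j + 1)) ^ p = 2 ^ p * ((2 : ℝ) ^ p) ^ j := by
                  rw [pow_succ, Real.mul_rpow (by positivity) (by norm_num), mul_comm]
                  congr 1
                  rw [← Real.rpow_natCast, ← Real.rpow_natCast, ← Real.rpow_mul (by norm_num),
                    ← Real.rpow_mul (by norm_num), mul_comm]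
                have e2 : q ^ j = ((2 : ℝ) ^ p) ^ j / 16 ^ j := by
                  rw [hq, Real.rpow_sub (by norm_num), div_pow]
                  congr 2
                  rw [show (4 : ℝ) = ((4 : ℕ) : ℝ) by norm_num, Real.rpow_natCast]
                  norm_num
                rw [e1, e2, pow_four]
                field_simp
      _ = (1 + 2 ^ p * C * ∑ j ∈ range J, q ^ j) * S.card := by
          rw [← mul_sum]
          ring
  have hJex : ∀ y : ℝ, ∃ J : ℕ, y < 2 ^ J ∧ ((2 : ℝ) ^ J ≤ 2 * y ∨ J = 0) ∧ (J : ℝ) ≤ 1 + |Real.log y| / Real.log 2 := by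
    intro y
    rcases lt_or_ge y 1 with h | h
    · refine ⟨0, by simpa using h, Or.inr rfl, ?_⟩
      push_cast
      positivity
    · obtain ⟨k, hk1, hk2⟩ : ∃ k : ℕ, (2 : ℝ) ^ k ≤ y ∧ y < 2 ^ (k + 1) := exists_nat_pow_near h (by norm_num)
      refine ⟨k + 1, hk2, Or.inl (by rw [pow_succ]; linarith), ?_⟩
      have h1 : (k : ℝ) * Real.log 2 ≤ Real.log y := by
        rw [← Real.log_pow]
        exact Real.log_le_log (by positivity) hk1
      push_cast
      rw [add_comm, add_le_add_iff_left, le_div_iff₀ hlog2]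
      exact h1.trans (le_abs_self _)
  have hZ : Tendsto (fun N : ℕ => (N : ℝ) ^ (1 / 4 : ℝ)) atTop atTop :=
    (tendsto_rpow_atTop (by norm_num : (0 : ℝ) < 1 / 4)).comp tendsto_natCast_atTop_atTop
  have hL : Tendsto (fun N : ℕ => Real.log N) atTop atTop := Real.tendsto_log_atTop.comp tendsto_natCast_atTop_atTop
  rcases lt_trichotomy p 4 with hp4 | hp4 | hp4
  · -- small moments
    have hq1 : q < 1 := by
      rw [hq]
      exact Real.rpow_lt_one_of_one_lt_of_neg (by norm_num) (by linarith)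
    refine ⟨c, 1 + 2 ^ p * C * (1 - q)⁻¹, hc, by
      have : 0 < (1 - q)⁻¹ := inv_pos.2 (by linarith)
      positivity, ?_⟩
    filter_upwards [hZ.eventually_ge_atTop (1 / c)] with N hN S x hx hmax hu hl
    have hsz : size p N = 1 := by unfold size; rw [if_pos hp4]
    rw [hsz, mul_one, mul_one]
    constructor
    · have h1 := hl 1 le_rfl (by rw [div_le_iff₀ hc] at hN; linarith)
      rw [one_pow, div_one] at h1
      refine h1.trans ?_
      calc ((S.filter fun A => 1 ≤ x A).card : ℝ) = ∑ A ∈ S.filter (fun A => 1 ≤ x A), (1 : ℝ) := by simp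
        _ ≤ ∑ A ∈ S.filter (fun A => 1 ≤ x A), (x A) ^ p :=
            sum_le_sum fun A hA => Real.one_le_rpow (mem_filter.1 hA).2 hp.le
        _ ≤ ∑ A ∈ S, (x A) ^ p := sum_le_sum_of_subset_of_nonneg (filter_subset _ _)
            fun A _ _ => Real.rpow_nonneg (hx A) _
    · obtain ⟨J, hJ, _, _⟩ := hJex (C * (N : ℝ) ^ (1 / 4 : ℝ))
      refine (hup N S x hx J (fun A hA => (hmax A hA).trans_lt hJ) hu).trans ?_
      have h1 : ∑ j ∈ range J, q ^ j ≤ (1 - q)⁻¹ := by
        rw [← tsum_geometric_of_lt_one hq0.le hq1]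
        exact (summable_geometric_of_lt_one hq0.le hq1).sum_le_tsum _ (fun j _ => by positivity)
      gcongr
  · -- the fourth moment
    have hq1 : q = 1 := by rw [hq, hp4, sub_self, Real.rpow_zero]
    subst hp4
    refine ⟨15 / 16 * c * (1 / (8 * Real.log 2)), 1 + 2 ^ (4 : ℝ) * C * (1 + 2 / Real.log 2), by positivity, by positivity, ?_⟩
    filter_upwards [hZ.eventually_ge_atTop (1 / c), hL.eventually_ge_atTop 1, hL.eventually_ge_atTop (8 * |Real.log c|),
      hL.eventually_ge_atTop |Real.log C|, eventually_ge_atTop 1] with N hN hN1 hN2 hN3 hN4 S x hx hmax hu hl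
    have hsz : size 4 N = Real.log N := by unfold size; rw [if_neg (lt_irrefl _), if_pos rfl]
    have hNr : (0 : ℝ) < N := by exact_mod_cast hN4
    have hZ0 : 0 < (N : ℝ) ^ (1 / 4 : ℝ) := Real.rpow_pos_of_pos hNr _
    have hlogZ : Real.log ((N : ℝ) ^ (1 / 4 : ℝ)) = 1 / 4 * Real.log N := Real.log_rpow hNr _
    rw [hsz]
    constructor
    · have hy1 : 1 ≤ c * (N : ℝ) ^ (1 / 4 : ℝ) := by rw [div_le_iff₀ hc] at hN; linarith
      obtain ⟨k, hk1, hk2⟩ : ∃ k : ℕ, (2 : ℝ) ^ k ≤ c * (N : ℝ) ^ (1 / 4 : ℝ) ∧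
        c * (N : ℝ) ^ (1 / 4 : ℝ) < 2 ^ (k + 1) := exists_nat_pow_near hy1 (by norm_num)
      have h1 : Real.log N / 8 ≤ ((k + 1 : ℕ) : ℝ) * Real.log 2 := by
        rw [← Real.log_pow]
        have h2 := Real.log_le_log (by positivity) hk2.le
        rw [Real.log_mul hc.ne' hZ0.ne', hlogZ] at h2
        have h3 := neg_abs_le (Real.log c)
        linarith
      have h2 : 1 / (8 * Real.log 2) * Real.log N ≤ ((k + 1 : ℕ) : ℝ) := by
        rw [div_mul_eq_mul_div, one_mul, div_le_iff₀ (by positivity)]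
        linarith
      have h3 : ∀ j ∈ range (k + 1), c * S.card ≤ 16 ^ j * ((S.filter fun A => (2 : ℝ) ^ j ≤ x A).card : ℝ) := by
        intro j hj
        rw [mem_range] at hj
        have h4 : (2 : ℝ) ^ j ≤ c * (N : ℝ) ^ (1 / 4 : ℝ) :=
          (pow_le_pow_right₀ (by norm_num) (by omega)).trans hk1
        have h5 := hl (2 ^ j) (one_le_pow₀ (by norm_num)) h4
        rw [pow_four, div_le_iff₀ (by positivity)] at h5
        linarith
      calc 15 / 16 * c * (1 / (8 * Real.log 2)) * Real.log N * S.card =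
            15 / 16 * ((1 / (8 * Real.log 2) * Real.log N) * (c * S.card)) := by ring
        _ ≤ 15 / 16 * (((k + 1 : ℕ) : ℝ) * (c * S.card)) := by gcongr
        _ = 15 / 16 * ∑ j ∈ range (k + 1), c * (S.card : ℝ) := by rw [sum_const, card_range, nsmul_eq_mul]
        _ ≤ 15 / 16 * ∑ j ∈ range (k + 1), 16 ^ j * ((S.filter fun A => (2 : ℝ) ^ j ≤ x A).card : ℝ) := by
            exact mul_le_mul_of_nonneg_left (sum_le_sum h3) (by norm_num)
        _ = ∑ A ∈ S, 15 / 16 * ∑ j ∈ range (k + 1), (if (2 : ℝ) ^ j ≤ x A then (16 : ℝ) ^ j else 0) := by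
            rw [← mul_sum, sum_comm]
            congr 1
            refine sum_congr rfl fun j _ => ?_
            rw [← sum_filter, sum_const, nsmul_eq_mul, mul_comm]
        _ ≤ ∑ A ∈ S, (x A) ^ (4 : ℝ) := sum_le_sum fun A _ => point_lower (hx A) _
    · obtain ⟨J, hJ, _, hJ2⟩ := hJex (C * (N : ℝ) ^ (1 / 4 : ℝ))
      refine (hup N S x hx J (fun A hA => (hmax A hA).trans_lt hJ) hu).trans ?_
      rw [hq1]
      simp only [one_pow, sum_const, card_range, nsmul_eq_mul, mul_one]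
      have h1 : (J : ℝ) ≤ (1 + 2 / Real.log 2) * Real.log N := by
        refine hJ2.trans ?_
        rw [Real.log_mul hC.ne' hZ0.ne', hlogZ]
        have h2 : |Real.log C + 1 / 4 * Real.log N| ≤ 2 * Real.log N := by
          refine (abs_add_le _ _).trans ?_
          have : |1 / 4 * Real.log N| = 1 / 4 * Real.log N := abs_of_nonneg (by linarith)
          rw [this]
          linarith
        have h3 : |Real.log C + 1 / 4 * Real.log N| / Real.log 2 ≤ (2 * Real.log N) / Real.log 2 := by gcongr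
        have h4 : (1 + 2 / Real.log 2) * Real.log N = Real.log N + (2 * Real.log N) / Real.log 2 := by ring
        rw [h4]
        linarith
      have h2 : 1 ≤ Real.log N := hN1
      calc (1 + 2 ^ (4 : ℝ) * C * J) * (S.card : ℝ) ≤
            (Real.log N + 2 ^ (4 : ℝ) * C * ((1 + 2 / Real.log 2) * Real.log N)) * S.card := by gcongr
        _ = _ := by ring
  · -- large moments
    have hq1 : 1 < q := by
      rw [hq]
      exact Real.one_lt_rpow (by norm_num) (by linarith)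
    have hq1' : 0 < q - 1 := by linarith
    refine ⟨c * c ^ (p - 4), 1 + 2 ^ p * C * ((2 * C) ^ (p - 4) / (q - 1)), by positivity, by positivity, ?_⟩
    filter_upwards [hZ.eventually_ge_atTop (1 / c), hZ.eventually_ge_atTop (1 / C), eventually_ge_atTop 1] with
      N hN hN2 hN4 S x hx hmax hu hl
    have hNr : (0 : ℝ) < N := by exact_mod_cast hN4
    have hN1 : (1 : ℝ) ≤ N := by exact_mod_cast hN4
    have hZ0 : 0 < (N : ℝ) ^ (1 / 4 : ℝ) := Real.rpow_pos_of_pos hNr _
    have hsz : size p N = (N : ℝ) ^ (p / 4 - 1) := by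
      unfold size
      rw [if_neg (by linarith), if_neg (by linarith)]
    have hsz1 : 1 ≤ size p N := by
      rw [hsz]
      exact Real.one_le_rpow hN1 (by linarith)
    have hZp : ((N : ℝ) ^ (1 / 4 : ℝ)) ^ (p - 4) = size p N := by
      rw [hsz, ← Real.rpow_mul hNr.le]
      congr 1
      ring
    constructor
    · have hy1 : 1 ≤ c * (N : ℝ) ^ (1 / 4 : ℝ) := by rw [div_le_iff₀ hc] at hN; linarith
      obtain ⟨R, hR⟩ : ∃ R : ℝ, R = c * (N : ℝ) ^ (1 / 4 : ℝ) := ⟨_, rfl⟩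
      rw [← hR] at hy1
      have hR0 : 0 < R := by linarith
      have h1 := hl R hy1 (le_of_eq hR)
      have h2 : R ^ p * ((S.filter fun A => R ≤ x A).card : ℝ) ≤ ∑ A ∈ S, (x A) ^ p := by
        calc R ^ p * ((S.filter fun A => R ≤ x A).card : ℝ) = ∑ A ∈ S.filter (fun A => R ≤ x A), R ^ p := by
              rw [sum_const, nsmul_eq_mul, mul_comm]
          _ ≤ ∑ A ∈ S.filter (fun A => R ≤ x A), (x A) ^ p :=
              sum_le_sum fun A hA => Real.rpow_le_rpow hR0.le (mem_filter.1 hA).2 hp.le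
          _ ≤ ∑ A ∈ S, (x A) ^ p := sum_le_sum_of_subset_of_nonneg (filter_subset _ _)
              fun A _ _ => Real.rpow_nonneg (hx A) _
      refine le_trans ?_ h2
      refine le_trans (le_of_eq ?_) (mul_le_mul_of_nonneg_left h1 (Real.rpow_nonneg hR0.le p))
      have e1 : R ^ p = R ^ (p - 4) * R ^ 4 := by
        rw [← Real.rpow_natCast R 4, ← Real.rpow_add hR0]
        congr 1
        push_cast
        ring
      have e2 : R ^ (p - 4) = c ^ (p - 4) * size p N := by
        rw [hR, Real.mul_rpow hc.le hZ0.le, hZp]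
      rw [e1, e2]
      field_simp
    · obtain ⟨J, hJ, hJ1, _⟩ := hJex (C * (N : ℝ) ^ (1 / 4 : ℝ))
      refine (hup N S x hx J (fun A hA => (hmax A hA).trans_lt hJ) hu).trans ?_
      have hy1 : 1 ≤ C * (N : ℝ) ^ (1 / 4 : ℝ) := by rw [div_le_iff₀ hC] at hN2; linarith
      have hJ1' : (2 : ℝ) ^ J ≤ 2 * (C * (N : ℝ) ^ (1 / 4 : ℝ)) := by
        rcases hJ1 with h | h
        · exact h
        · rw [h, pow_zero]
          linarith
      have h1 : q ^ J ≤ (2 * C) ^ (p - 4) * size p N := by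
        have e1 : q ^ J = ((2 : ℝ) ^ J) ^ (p - 4) := by
          rw [hq, ← Real.rpow_natCast, ← Real.rpow_natCast, ← Real.rpow_mul (by norm_num),
            ← Real.rpow_mul (by norm_num), mul_comm]
        rw [e1, ← hZp, ← Real.mul_rpow (by positivity) hZ0.le]
        refine Real.rpow_le_rpow (by positivity) (hJ1'.trans (le_of_eq ?_)) (by linarith)
        ring
      have h2 : ∑ j ∈ range J, q ^ j ≤ (2 * C) ^ (p - 4) / (q - 1) * size p N := by
        rw [geom_sum_eq hq1.ne', div_mul_eq_mul_div]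
        gcongr
        linarith
      calc (1 + 2 ^ p * C * ∑ j ∈ range J, q ^ j) * (S.card : ℝ) ≤
            (size p N + 2 ^ p * C * ((2 * C) ^ (p - 4) / (q - 1) * size p N)) * S.card := by gcongr
        _ = _ := by ring

end Pool.Agent.Q185.HT
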