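import Pool.Agent.Q185.HT.Cusp
import Pool.Agent.Q185.HT.Count

/-!
# The number of the points of a horocycle close to cusps
-/

set_option autoImplicit false

namespace Pool.Agent.Q185.HT

open Filter Finset Topology Complex Pool.Agent.Q99.VC
open scoped Real

open Classical in
/-- the exceptional points, with the exact power -/
theorem count_bad' {β : ℝ} (hβ : 0 < β) (α : ℝ) {y₀ : ℝ} (hy1 : 1 ≤ y₀) {N : ℕ} (hNβ : 4 * β < N) (B : ℤ) (L : ℕ)
    (hL : N ≤ L) : (((Finset.Ico B (B + L)).filter (Bad α β y₀ N)).card : ℝ) ≤ L * (3 * (2 + 1 / β) / y₀) := by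
  have hNp : (0 : ℝ) < N := by linarith
  have hN0 : 0 < N := by exact_mod_cast hNp
  have hLr : (N : ℝ) ≤ L := by exact_mod_cast hL
  have hy0 : 0 < y₀ := by linarith
  obtain ⟨R, hR⟩ : ∃ R : ℝ, R = Real.sqrt (β * N / y₀) := ⟨_, rfl⟩
  have hR0 : 0 ≤ R := by rw [hR]; exact Real.sqrt_nonneg _
  have hR2 : R ^ 2 = β * N / y₀ := by rw [hR]; exact Real.sq_sqrt (by positivity)
  obtain ⟨Q, hQ⟩ : ∃ Q : ℝ, Q = Real.sqrt (N / (β * y₀)) := ⟨_, rfl⟩
  have hQ0 : 0 ≤ Q := by rw [hQ]; exact Real.sqrt_nonneg _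
  have hQ2 : Q ^ 2 = N / (β * y₀) := by rw [hQ]; exact Real.sq_sqrt (by positivity)
  have hRQ : R * Q = N / y₀ := by
    have h1 : (R * Q) ^ 2 = (N / y₀) ^ 2 := by
      rw [mul_pow, hR2, hQ2]
      field_simp
    exact (pow_left_inj₀ (by positivity) (by positivity) two_ne_zero).1 h1
  have hRN : 2 * R ≤ N := by
    have h1 : β * N / y₀ ≤ (N / 2) ^ 2 := by
      rw [div_le_iff₀ hy0]
      nlinarith
    have h2 : R ≤ N / 2 := by
      rw [hR]
      exact Real.sqrt_le_iff.2 ⟨by positivity, h1⟩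
    linarith
  set C₀ : ℕ := ⌊Q⌋₊ with hC₀
  have hC₀Q : (C₀ : ℝ) ≤ Q := Nat.floor_le hQ0
  -- the covering
  set u : ℕ → ℝ := fun c => (-R - c * (B + L + α)) / N with hu
  set v : ℕ → ℝ := fun c => (R - c * (B + α)) / N with hv
  have hsub : (Finset.Ico B (B + L)).filter (Bad α β y₀ N) ⊆
      (Finset.Icc 1 C₀).biUnion fun c => (Finset.Icc ⌈u c⌉ ⌊v c⌋).biUnion fun d : ℤ =>
        Finset.Icc ⌈(-R - d * N) / c - α⌉ ⌊(R - d * N) / c - α⌋ := by
    intro A hA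
    rw [Finset.mem_filter, Finset.mem_Ico] at hA
    obtain ⟨⟨hA1, hA2⟩, hA3⟩ := hA
    unfold Bad at hA3
    push Not at hA3
    obtain ⟨c', d', hcd, hlt⟩ := hA3
    rw [norm_ta hN0, ta_im] at hlt
    have h1 : y₀ * ((c' * (A + α) + d' * N) ^ 2 + (c' * β) ^ 2) < β * N := by
      rw [← mul_div_assoc, div_lt_div_iff₀ (by positivity) hNp] at hlt
      have : y₀ * ((c' * (A + α) + d' * N) ^ 2 + (c' * β) ^ 2) * N < (β * N) * N := by
        nlinarith
      exact lt_of_mul_lt_mul_right this hNp.le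
    have hc' : c' ≠ 0 := by
      rintro rfl
      have hd' : d' ≠ 0 := by simpa using hcd
      have h2 : (1 : ℝ) ≤ (d' : ℝ) ^ 2 := by
        have : (0 : ℤ) < d' ^ 2 := by positivity
        have : (1 : ℤ) ≤ d' ^ 2 := this
        exact_mod_cast this
      push_cast at h1
      have h3 : (0 * ((A:ℝ) + α) + d' * N) ^ 2 + (0 * β) ^ 2 = (d' : ℝ) ^ 2 * N ^ 2 := by ring
      rw [h3] at h1
      have h4 : (N : ℝ) ^ 2 ≤ (d' : ℝ) ^ 2 * N ^ 2 := by nlinarith [sq_nonneg (N : ℝ)]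
      nlinarith
    -- `c > 0`
    obtain ⟨c, d, hc, h2⟩ : ∃ (c : ℕ) (d : ℤ), 1 ≤ c ∧
        y₀ * ((c * (A + α) + d * N) ^ 2 + (c * β) ^ 2) < β * N := by
      rcases lt_or_gt_of_ne hc' with h | h
      · refine ⟨c'.natAbs, -d', by omega, ?_⟩
        have e : ((c'.natAbs : ℕ) : ℝ) = -(c' : ℝ) := by
          rw [Nat.cast_natAbs, abs_of_neg h]
          push_cast
          rfl
        rw [e]
        push_cast
        have e2 : (-(c' : ℝ) * (A + α) + -(d' : ℝ) * N) ^ 2 + (-(c' : ℝ) * β) ^ 2 =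
          (c' * (A + α) + d' * N) ^ 2 + (c' * β) ^ 2 := by ring
        rw [e2]
        exact h1
      · refine ⟨c'.natAbs, d', by omega, ?_⟩
        have e : ((c'.natAbs : ℕ) : ℝ) = (c' : ℝ) := by
          rw [Nat.cast_natAbs, abs_of_pos h]
        rw [e]
        exact h1
    have hc1 : (1 : ℝ) ≤ c := by exact_mod_cast hc
    have h3 : (c * (A + α) + d * N) ^ 2 < R ^ 2 := by
      rw [hR2, lt_div_iff₀ hy0]
      nlinarith [sq_nonneg ((c : ℝ) * β), mul_nonneg hy0.le (sq_nonneg ((c : ℝ) * β))]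
    have h4 : ((c : ℝ)) ^ 2 < Q ^ 2 := by
      rw [hQ2, lt_div_iff₀ (by positivity)]
      have h5 : y₀ * (c * β) ^ 2 < β * N := by
        nlinarith [mul_nonneg hy0.le (sq_nonneg ((c : ℝ) * (A + α) + d * N))]
      have h6 : ((c : ℝ) ^ 2 * (β * y₀)) * β < N * β := by nlinarith
      exact lt_of_mul_lt_mul_right h6 hβ.le
    have h5 := abs_lt.1 (abs_lt_of_sq_lt_sq h3 hR0)
    have h6 : (c : ℝ) < Q := lt_of_pow_lt_pow_left₀ 2 hQ0 h4
    have hc0 : (0 : ℝ) < c := by linarith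
    have hA1r : (B : ℝ) ≤ A := by exact_mod_cast hA1
    have hA2r : (A : ℝ) ≤ B + L := by
      have : A ≤ B + L := hA2.le
      exact_mod_cast this
    rw [Finset.mem_biUnion]
    refine ⟨c, Finset.mem_Icc.2 ⟨hc, Nat.le_floor h6.le⟩, ?_⟩
    rw [Finset.mem_biUnion]
    refine ⟨d, Finset.mem_Icc.2 ⟨?_, ?_⟩, Finset.mem_Icc.2 ⟨?_, ?_⟩⟩
    · rw [Int.ceil_le, hu]
      simp only
      rw [div_le_iff₀ hNp]
      have := mul_le_mul_of_nonneg_left hA2r hc0.le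
      nlinarith [h5.1]
    · rw [Int.le_floor, hv]
      simp only
      rw [le_div_iff₀ hNp]
      have := mul_le_mul_of_nonneg_left hA1r hc0.le
      nlinarith [h5.2]
    · rw [Int.ceil_le, sub_le_iff_le_add, div_le_iff₀ hc0]
      nlinarith [h5.1]
    · rw [Int.le_floor, le_sub_iff_add_le, le_div_iff₀ hc0]
      nlinarith [h5.2]
  have hcard := Finset.card_le_card hsub
  have h1 : ((((Finset.Icc 1 C₀).biUnion fun c => (Finset.Icc ⌈u c⌉ ⌊v c⌋).biUnion fun d : ℤ =>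
        Finset.Icc ⌈(-R - d * N) / c - α⌉ ⌊(R - d * N) / c - α⌋).card : ℕ) : ℝ) ≤
      ∑ c ∈ Finset.Icc 1 C₀, 3 * L / N * (2 * R + c) := by
    refine (Nat.cast_le.2 Finset.card_biUnion_le).trans ?_
    rw [Nat.cast_sum]
    refine Finset.sum_le_sum fun c hc => ?_
    rw [Finset.mem_Icc] at hc
    have hc1 : (1 : ℝ) ≤ c := by exact_mod_cast hc.1
    have hc0 : (0 : ℝ) < c := by linarith
    refine (Nat.cast_le.2 Finset.card_biUnion_le).trans ?_
    rw [Nat.cast_sum]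
    have h2 : ∀ d ∈ Finset.Icc ⌈u c⌉ ⌊v c⌋,
        ((Finset.Icc ⌈(-R - d * N) / c - α⌉ ⌊(R - d * N) / c - α⌋).card : ℝ) ≤ 2 * R / c + 1 := by
      intro d _
      refine (card_int ?_).trans (le_of_eq ?_)
      · have : (-R - (d : ℝ) * N) / c ≤ (R - d * N) / c := by gcongr; linarith
        linarith
      · field_simp
        ring
    refine (Finset.sum_le_card_nsmul _ _ _ h2).trans ?_
    rw [nsmul_eq_mul]
    have h3 : ((Finset.Icc ⌈u c⌉ ⌊v c⌋).card : ℝ) ≤ 3 * c * L / N := by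
      refine (card_int ?_).trans ?_
      · rw [hu, hv]
        simp only
        have hL0 : (0:ℝ) ≤ L := by linarith
        have : 0 ≤ (c : ℝ) * L := by positivity
        gcongr ?_ / _
        nlinarith
      · rw [hu, hv]
        simp only
        have e : (R - c * (B + α)) / N - (-R - c * (B + L + α)) / N + 1 =
            (2 * R + c * L + N) / N := by
          field_simp
          ring
        rw [e]
        have h5 : (N : ℝ) ≤ c * L := by nlinarith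
        gcongr ?_ / _
        linarith
    have h4 : (0 : ℝ) ≤ 2 * R / c + 1 := by positivity
    refine (mul_le_mul_of_nonneg_right h3 h4).trans (le_of_eq ?_)
    field_simp
  have h2 : ∑ c ∈ Finset.Icc 1 C₀, 3 * (L : ℝ) / N * (2 * R + c) ≤ 3 * L / N * (2 * N / y₀ +
      N / (β * y₀)) := by
    rw [← Finset.mul_sum]
    refine mul_le_mul_of_nonneg_left ?_ (by positivity)
    have h3 : ∀ c ∈ Finset.Icc 1 C₀, 2 * R + (c : ℝ) ≤ 2 * R + Q := by
      intro c hc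
      rw [Finset.mem_Icc] at hc
      have : (c : ℝ) ≤ C₀ := by exact_mod_cast hc.2
      linarith
    refine (Finset.sum_le_card_nsmul _ _ _ h3).trans ?_
    rw [nsmul_eq_mul, Nat.card_Icc, Nat.add_sub_cancel]
    have h4 : (C₀ : ℝ) * (2 * R + Q) ≤ Q * (2 * R + Q) := by gcongr
    refine h4.trans (le_of_eq ?_)
    rw [← hQ2]
    have : 2 * (N : ℝ) / y₀ = 2 * (R * Q) := by rw [hRQ]; ring
    rw [this]
    ring
  have h3 : 3 * (L : ℝ) / N * (2 * N / y₀ + N / (β * y₀)) = L * (3 * (2 + 1 / β) / y₀) := by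
    field_simp
  calc (((Finset.Ico B (B + L)).filter (Bad α β y₀ N)).card : ℝ)
      ≤ _ := by exact_mod_cast hcard
    _ ≤ _ := h1
    _ ≤ _ := h2
    _ = _ := h3

/-- the numerator attached to a fraction -/
def num (N : ℕ) (J : ℤ) (c r : ℕ) : ℤ := if lab N = (1, 0) ∨ Even (J * c + r) then J * c + r else (J + 1) * c + r

theorem num_spec (N : ℕ) (J : ℤ) {n c r : ℕ} (h : (c, r) ∈ Fr n) :
    IsCoprime (num N J c r) (c : ℤ) ∧ J * c ≤ num N J c r ∧ num N J c r < (J + 2) * c ∧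
      lab N ≠ (((num N J c r : ℤ) : ZMod 2), (((c : ℕ) : ℤ) : ZMod 2)) ∧
      (num N J c r - r) % (c : ℤ) = 0 := by
  unfold Fr at h
  rw [mem_filter, mem_product, mem_Icc, mem_range] at h
  obtain ⟨⟨⟨hc1, hc2⟩, hr⟩, hodd, hrc, hcop⟩ := h
  simp only at hc1 hc2 hr hodd hrc hcop
  have hc0 : (1 : ℤ) ≤ c := by exact_mod_cast hc1
  have hr0 : (0 : ℤ) ≤ r := Int.natCast_nonneg r
  have hrc' : (r : ℤ) < c := by exact_mod_cast hrc
  have hcopz : IsCoprime (r : ℤ) (c : ℤ) := Nat.isCoprime_iff_coprime.2 hcop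
  have hcm : ∀ m : ℤ, IsCoprime (m * c + r) (c : ℤ) := by
    intro m
    have := hcopz.add_mul_left_left m
    have e : (r : ℤ) + c * m = m * c + r := by ring
    rwa [e] at this
  have hc2' : ((((c : ℕ) : ℤ)) : ZMod 2) = 1 := by
    rw [ZMod.intCast_eq_one_iff_odd]
    exact_mod_cast hodd
  have hlab : lab N = (1, 0) ∨ lab N = (1, 1) := by
    unfold lab
    split_ifs
    · exact Or.inl rfl
    · exact Or.inr rfl
  unfold num
  split_ifs with hcase
  · refine ⟨hcm J, by linarith, by nlinarith, ?_, by rw [add_sub_cancel_right]; exact Int.mul_emod_left _ _⟩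
    rw [hc2']
    rcases hcase with hl | he
    · rw [hl]
      intro h0
      have := congrArg Prod.snd h0
      simp at this
    · rw [ZMod.intCast_eq_zero_iff_even.2 he]
      rcases hlab with hl | hl
      · rw [hl]; decide
      · rw [hl]; decide
  · push Not at hcase
    obtain ⟨hl, hne⟩ := hcase
    have hl' : lab N = (1, 1) := hlab.resolve_left hl
    have he : Even ((J + 1) * (c : ℤ) + r) := by
      have e : (J + 1) * (c : ℤ) + r = (J * c + r) + c := by ring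
      rw [e]
      have hcodd : Odd (c : ℤ) := by exact_mod_cast hodd
      exact (Int.not_even_iff_odd.1 hne).add_odd hcodd
    refine ⟨hcm _, by nlinarith, by nlinarith, ?_, by rw [add_sub_cancel_right]; exact Int.mul_emod_left _ _⟩
    rw [hc2', ZMod.intCast_eq_zero_iff_even.2 he, hl']
    decide

/-- **Points close to cusps**: there are at least `η L / Y` of height `Y` in every window. -/
theorem count_good {β : ℝ} (hβ : 0 < β) (α : ℝ) : ∃ η : ℝ, 0 < η ∧ ∀ N : ℕ, 2 ≤ N → ∀ Y : ℝ, 1 ≤ Y → Y ≤ η * N →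
    ∀ (B : ℤ) (L : ℕ), 4 * N ≤ L → ∃ T : Finset ℤ, T ⊆ Finset.Ico B (B + L) ∧ η * L / Y ≤ (T.card : ℝ) ∧
      ∀ A ∈ T, 1 / 2 * Y ^ (1 / 4 : ℝ) ≤ (ta α β N A).im ^ (1 / 4 : ℝ) * th (lab N) (ta α β N A) := by
  classical
  obtain ⟨κ, hκ⟩ : ∃ κ : ℝ, κ = min (β / (1 / 4 + β ^ 2)) (1 / 2) := ⟨_, rfl⟩
  have hκ0 : 0 < κ := by rw [hκ]; exact lt_min (by positivity) (by norm_num)
  have hκ1 : κ * (1 / 4 + β ^ 2) ≤ β := by
    have h1 : κ ≤ β / (1 / 4 + β ^ 2) := by rw [hκ]; exact min_le_left _ _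
    rwa [le_div_iff₀ (by positivity)] at h1
  have hκ2 : κ ≤ 1 / 2 := by rw [hκ]; exact min_le_right _ _
  refine ⟨κ / 768, by positivity, fun N hN Y hY hYN B L hL => ?_⟩
  have hNr : (2 : ℝ) ≤ N := by exact_mod_cast hN
  have hN0 : (0 : ℝ) < N := by linarith
  have hNn : 0 < N := by omega
  have hLr : 4 * (N : ℝ) ≤ L := by exact_mod_cast hL
  have hY0 : 0 < Y := by linarith
  obtain ⟨w, hw⟩ : ∃ w : ℝ, w = Real.sqrt (κ * N / Y) := ⟨_, rfl⟩
  have hw2 : w ^ 2 = κ * N / Y := by rw [hw]; exact Real.sq_sqrt (by positivity)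
  have hw0 : 0 ≤ w := by rw [hw]; exact Real.sqrt_nonneg _
  have hw1 : 1 ≤ w := by
    have h1 : 1 ≤ κ * N / Y := by
      rw [le_div_iff₀ hY0]
      nlinarith
    by_contra hcon
    push Not at hcon
    nlinarith
  obtain ⟨n, hn⟩ : ∃ n : ℕ, n = ⌊w⌋₊ := ⟨_, rfl⟩
  have hnw : (n : ℝ) ≤ w := by rw [hn]; exact Nat.floor_le hw0
  have hnw' : w < n + 1 := by rw [hn]; exact Nat.lt_floor_add_one w
  have hn1 : (1 : ℝ) ≤ n := by
    have : 1 ≤ n := by rw [hn]; exact (Nat.one_le_floor_iff w).2 hw1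
    exact_mod_cast this
  have hn2 : (n : ℝ) ^ 2 ≤ κ * N / Y := by rw [← hw2]; exact pow_le_pow_left₀ (by linarith) hnw 2
  have hn3 : κ * N / Y ≤ 4 * (n : ℝ) ^ 2 := by
    rw [← hw2]
    nlinarith
  have hnY : Y * (n : ℝ) ^ 2 ≤ κ * N := by
    rw [le_div_iff₀ hY0] at hn2
    linarith
  have hnN : (n : ℝ) ^ 2 ≤ N / 2 := by nlinarith
  obtain ⟨j₀, hj₀⟩ : ∃ j₀ : ℤ, j₀ = ⌈((B : ℝ) + α + 1) / N⌉ := ⟨_, rfl⟩
  have hj1 : (B : ℝ) + α + 1 ≤ j₀ * N := by
    have := Int.le_ceil (((B : ℝ) + α + 1) / N)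
    rw [← hj₀, div_le_iff₀ hN0] at this
    exact this
  have hj2 : (j₀ : ℝ) * N < B + α + 1 + N := by
    have := Int.ceil_lt_add_one (((B : ℝ) + α + 1) / N)
    rw [← hj₀] at this
    have h2 := mul_lt_mul_of_pos_right this hN0
    rw [add_mul, div_mul_cancel₀ _ hN0.ne'] at h2
    linarith
  obtain ⟨m, hm⟩ : ∃ m : ℕ, m = L / (4 * N) := ⟨_, rfl⟩
  have hm1 : m * (4 * N) ≤ L := by rw [hm]; exact Nat.div_mul_le_self _ _
  have hm2 : L < (m + 1) * (4 * N) := by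
    rw [hm]
    exact Nat.lt_mul_of_div_lt (Nat.lt_succ_self _) (by omega)
  have hm3 : 1 ≤ m := by rw [hm]; exact Nat.div_pos hL (by omega)
  have hm1r : (m : ℝ) * (4 * N) ≤ L := by exact_mod_cast hm1
  have hm2r : (L : ℝ) ≤ m * (8 * N) := by
    have h1 : (L : ℝ) < (m + 1) * (4 * N) := by exact_mod_cast hm2
    have h2 : (1 : ℝ) ≤ m := by exact_mod_cast hm3
    nlinarith
  -- the map
  let φ : ℕ × ℕ × ℕ → ℤ := fun x => round ((num N (j₀ + 2 * x.1) x.2.1 x.2.2 : ℝ) * N / x.2.1 - α)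
  have hφ : ∀ x : ℕ × ℕ × ℕ, |((num N (j₀ + 2 * x.1) x.2.1 x.2.2 : ℤ) : ℝ) * N / x.2.1 - α - φ x| ≤ 1 / 2 :=
    fun x => abs_sub_round _
  have hbasic : ∀ x ∈ (range m) ×ˢ (Fr n), (1 : ℝ) ≤ x.2.1 ∧ ((x.2.1 : ℕ) : ℝ) ≤ n ∧ ((x.1 : ℕ) : ℝ) + 1 ≤ m := by
    rintro ⟨i, c, r⟩ hx
    rw [mem_product, mem_range] at hx
    obtain ⟨h1, h2⟩ := hx
    unfold Fr at h2
    rw [mem_filter, mem_product, mem_Icc] at h2
    simp only at h1 h2 ⊢
    exact ⟨by exact_mod_cast h2.1.1.1, by exact_mod_cast h2.1.1.2, by exact_mod_cast h1⟩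
  have hinj : Set.InjOn φ ((range m) ×ˢ (Fr n) : Finset (ℕ × ℕ × ℕ)) := by
    rintro ⟨i, c, r⟩ hx ⟨i', c', r'⟩ hx' hxx
    rw [mem_coe] at hx hx'
    obtain ⟨b1, b2, b3⟩ := hbasic _ hx
    obtain ⟨b1', b2', b3'⟩ := hbasic _ hx'
    rw [mem_product] at hx hx'
    obtain ⟨s1, s2, s3, _, s5⟩ := num_spec N (j₀ + 2 * (i : ℤ)) hx.2
    obtain ⟨s1', s2', s3', _, s5'⟩ := num_spec N (j₀ + 2 * (i' : ℤ)) hx'.2
    have e1 := hφ (i, c, r)
    have e2 := hφ (i', c', r')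
    rw [← hxx] at e2
    simp only at e1 e2 b1 b2 b1' b2'
    obtain ⟨p, hp⟩ : ∃ p : ℤ, p = num N (j₀ + 2 * (i : ℤ)) c r := ⟨_, rfl⟩
    obtain ⟨p', hp'⟩ : ∃ p' : ℤ, p' = num N (j₀ + 2 * (i' : ℤ)) c' r' := ⟨_, rfl⟩
    rw [← hp] at s1 s2 s3 s5 e1
    rw [← hp'] at s1' s2' s3' s5' e2
    have hc0 : (0 : ℝ) < c := by linarith
    have hc0' : (0 : ℝ) < c' := by linarith
    have e3 : |(p : ℝ) * N / c - p' * N / c'| ≤ 1 := by
      rw [abs_le] at e1 e2 ⊢
      constructor <;> linarith [e1.1, e1.2, e2.1, e2.2]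
    have e4 : |(p : ℝ) * c' - p' * c| * N ≤ c * c' := by
      have e5 : (p : ℝ) * N / c - p' * N / c' = ((p : ℝ) * c' - p' * c) * N / (c * c') := by
        field_simp
      rw [e5, abs_div, abs_mul, abs_of_pos hN0, abs_of_pos (mul_pos hc0 hc0'), div_le_one (mul_pos hc0 hc0')] at e3
      exact e3
    have e5 : |(p : ℝ) * c' - p' * c| < 1 := by
      by_contra hcon
      push Not at hcon
      have h7 : (c : ℝ) * c' ≤ n * n := mul_le_mul b2 b2' (by linarith) (by linarith)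
      nlinarith
    have e6 : p * c' = p' * c := by
      have h7 : |p * (c' : ℤ) - p' * c| < 1 := by exact_mod_cast e5
      have h8 := Int.abs_lt_one_iff.1 h7
      linarith
    have hcz : (0 : ℤ) < c := by exact_mod_cast hc0
    have hcz' : (0 : ℤ) < c' := by exact_mod_cast hc0'
    have d1 : (c : ℤ) ∣ c' := s1.symm.dvd_of_dvd_mul_left (Dvd.intro_left p' e6.symm)
    have d2 : (c' : ℤ) ∣ c := s1'.symm.dvd_of_dvd_mul_left (Dvd.intro_left p e6)
    have e7 : (c : ℤ) = c' := Int.dvd_antisymm hcz.le hcz'.le d1 d2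
    have e8 : c = c' := by exact_mod_cast e7
    subst e8
    have e9 : p = p' := by
      have := mul_right_cancel₀ hcz.ne' e6
      exact this
    subst e9
    have e10 : i = i' := by
      have f1 : (j₀ + 2 * (i : ℤ)) * c < (j₀ + 2 * (i' : ℤ) + 2) * c := lt_of_le_of_lt s2 s3'
      have f2 : (j₀ + 2 * (i' : ℤ)) * c < (j₀ + 2 * (i : ℤ) + 2) * c := lt_of_le_of_lt s2' s3
      have f3 := lt_of_mul_lt_mul_right f1 hcz.le
      have f4 := lt_of_mul_lt_mul_right f2 hcz.le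
      omega
    subst e10
    have hr : r < c := by
      have := hx.2
      unfold Fr at this
      rw [mem_filter] at this
      exact this.2.2.1
    have hr' : r' < c := by
      have := hx'.2
      unfold Fr at this
      rw [mem_filter] at this
      exact this.2.2.1
    have e11 : r = r' := by
      have g1 : (c : ℤ) ∣ p - r := Int.dvd_of_emod_eq_zero s5
      have g2 : (c : ℤ) ∣ p - r' := Int.dvd_of_emod_eq_zero s5'
      have g3 : (c : ℤ) ∣ (r' : ℤ) - r := by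
        have := dvd_sub g1 g2
        have e : (p - r) - (p - r') = (r' : ℤ) - r := by ring
        rwa [e] at this
      have g4 : r ≡ r' [MOD c] := (Nat.modEq_iff_dvd).2 g3
      exact g4.eq_of_lt_of_lt hr hr'
    rw [e11]
  refine ⟨((range m) ×ˢ (Fr n)).image φ, ?_, ?_, ?_⟩
  · intro A hA
    rw [mem_image] at hA
    obtain ⟨⟨i, c, r⟩, hx, rfl⟩ := hA
    obtain ⟨b1, b2, b3⟩ := hbasic _ hx
    rw [mem_product] at hx
    obtain ⟨s1, s2, s3, _, s5⟩ := num_spec N (j₀ + 2 * (i : ℤ)) hx.2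
    have e1 := hφ (i, c, r)
    simp only at e1 b1 b2 b3
    obtain ⟨p, hp⟩ : ∃ p : ℤ, p = num N (j₀ + 2 * (i : ℤ)) c r := ⟨_, rfl⟩
    rw [← hp] at s1 s2 s3 s5 e1
    have hc0 : (0 : ℝ) < c := by linarith
    have s2r : ((j₀ : ℝ) + 2 * i) * c ≤ p := by exact_mod_cast s2
    have s3r : (p : ℝ) ≤ ((j₀ : ℝ) + 2 * i + 2) * c := by exact_mod_cast s3.le
    have f1 : ((j₀ : ℝ) + 2 * i) * N ≤ p * N / c := by
      rw [le_div_iff₀ hc0]
      nlinarith
    have f2 : (p : ℝ) * N / c ≤ ((j₀ : ℝ) + 2 * i + 2) * N := by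
      rw [div_le_iff₀ hc0]
      nlinarith
    have hi0 : (0 : ℝ) ≤ i := Nat.cast_nonneg i
    rw [abs_le] at e1
    have f3 : (j₀ : ℝ) * N ≤ ((j₀ : ℝ) + 2 * i) * N := by nlinarith
    have f4 : ((j₀ : ℝ) + 2 * i + 2) * N ≤ j₀ * N + 2 * (m * N) := by nlinarith
    rw [Finset.mem_Ico]
    constructor
    · have g1 : ((B : ℤ) : ℝ) < (φ (i, c, r) : ℝ) := by linarith [e1.2]
      exact le_of_lt (by exact_mod_cast g1)
    · have g1 : ((φ (i, c, r) : ℤ) : ℝ) < ((B + L : ℤ) : ℝ) := by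
        push_cast
        linarith [e1.1]
      exact_mod_cast g1
  · rw [Finset.card_image_of_injOn hinj, card_product, card_range]
    have h1 := card_Fr n
    have h2 : (0 : ℝ) ≤ m := Nat.cast_nonneg m
    push_cast
    have h3 : (m : ℝ) * ((n : ℝ) ^ 2 / 24) ≤ m * ((Fr n).card : ℝ) := mul_le_mul_of_nonneg_left h1 h2
    refine le_trans ?_ h3
    have h4 : κ * N / Y / 96 ≤ (n : ℝ) ^ 2 / 24 := by linarith
    refine le_trans ?_ (mul_le_mul_of_nonneg_left h4 h2)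
    have h5 : κ / 768 * L / Y ≤ κ / 768 * (m * (8 * N)) / Y := by gcongr
    refine h5.trans (le_of_eq ?_)
    field_simp
    norm_num
  · intro A hA
    rw [mem_image] at hA
    obtain ⟨⟨i, c, r⟩, hx, rfl⟩ := hA
    obtain ⟨b1, b2, b3⟩ := hbasic _ hx
    rw [mem_product] at hx
    obtain ⟨s1, s2, s3, s4, s5⟩ := num_spec N (j₀ + 2 * (i : ℤ)) hx.2
    have e1 := hφ (i, c, r)
    simp only at e1 b1 b2 b3
    obtain ⟨p, hp⟩ : ∃ p : ℤ, p = num N (j₀ + 2 * (i : ℤ)) c r := ⟨_, rfl⟩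
    rw [← hp] at s1 s2 s3 s4 s5 e1
    have hc0 : (0 : ℝ) < c := by linarith
    refine theta_lower hY (by rw [ta_im]; positivity) s1 ?_ s4 ?_
    · unfold lab
      split_ifs <;> decide
    · have e2 : ‖(((c : ℕ) : ℤ) : ℂ) * ta α β N (φ (i, c, r)) - (p : ℂ)‖ ^ 2 =
          ((c * ((φ (i, c, r) : ℝ) + α) - p * N) ^ 2 + (c * β) ^ 2) / (N : ℝ) ^ 2 := by
        have h7 := norm_ta (α := α) (β := β) hNn (φ (i, c, r)) (c : ℤ) (-p)
        rw [Int.cast_neg, ← sub_eq_add_neg] at h7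
        rw [h7]
        push_cast
        ring
      rw [e2, ta_im]
      have e3 : |(c : ℝ) * ((φ (i, c, r) : ℝ) + α) - p * N| ≤ c / 2 := by
        have h7 : (c : ℝ) * ((φ (i, c, r) : ℝ) + α) - p * N = -(c * ((p : ℝ) * N / c - α - φ (i, c, r))) := by
          field_simp
          ring
        rw [h7, abs_neg, abs_mul, abs_of_pos hc0]
        have := mul_le_mul_of_nonneg_left e1 hc0.le
        linarith
      have e4 : ((c : ℝ) * ((φ (i, c, r) : ℝ) + α) - p * N) ^ 2 ≤ (c / 2) ^ 2 := by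
        rw [← sq_abs]
        exact pow_le_pow_left₀ (abs_nonneg _) e3 2
      have e5 : (c : ℝ) ^ 2 ≤ (n : ℝ) ^ 2 := pow_le_pow_left₀ hc0.le b2 2
      rw [← mul_div_assoc, div_le_div_iff₀ (by positivity) hN0]
      have e6 : Y * (((c : ℝ) * ((φ (i, c, r) : ℝ) + α) - p * N) ^ 2 + (c * β) ^ 2) ≤ β * N := by
        calc Y * (((c : ℝ) * ((φ (i, c, r) : ℝ) + α) - p * N) ^ 2 + (c * β) ^ 2) ≤
              Y * ((c / 2) ^ 2 + (c * β) ^ 2) := by gcongr
          _ = Y * (c : ℝ) ^ 2 * (1 / 4 + β ^ 2) := by ring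
          _ ≤ Y * (n : ℝ) ^ 2 * (1 / 4 + β ^ 2) := by gcongr
          _ ≤ κ * N * (1 / 4 + β ^ 2) := by gcongr
          _ = (κ * (1 / 4 + β ^ 2)) * N := by ring
          _ ≤ β * N := by gcongr
      calc Y * (((c : ℝ) * ((φ (i, c, r) : ℝ) + α) - p * N) ^ 2 + (c * β) ^ 2) * N ≤ (β * N) * N := by gcongr
        _ = β * (N : ℝ) ^ 2 := by ring

end Pool.Agent.Q185.HT
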